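import Mathlib

/-! Definitions for the statement: the group of all functions `w^n R(x)` and the condition on `c`. -/

namespace HYF

open Polynomial

/-- The subgroup of `Kˣ` generated by `w` and by all the `p(x) ≠ 0`, `p ∈ ℚ[X]`. -/
def fullGroup {K : Type} [Field K] [CharZero K] (x w : K) : Subgroup Kˣ :=
  Subgroup.closure ({u | (u : K) = w} ∪ {u | ∃ p : ℚ[X], (u : K) = aeval x p})

/-- For every prime `l ∣ N` there are two primes `p ≠ q` with `l ∤ p (p - 1) v_p(c)` and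
`l ∤ q (q - 1) v_q(c)` (so `p` and `q` divide `c`). -/
def TwoPrimes (N : ℕ) (c : ℤ) : Prop :=
  ∀ l : ℕ, l.Prime → l ∣ N → ∃ p q : ℕ, p.Prime ∧ q.Prime ∧ p ≠ q ∧
    ¬ l ∣ p * (p - 1) * padicValInt p c ∧ ¬ l ∣ q * (q - 1) * padicValInt q c

end HYF
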