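import Mathlib

/-! Valuation rings of `ℂ` above a prime `p`. -/

namespace HYF

theorem exists_val {p : ℕ} (hp : p.Prime) : ∃ B : ValuationSubring ℂ, B.valuation (p : ℂ) < 1 := by
  let A : Subring ℂ := (Int.castRingHom ℂ).range
  have hpA : (p : ℂ) ∈ A := ⟨(p : ℤ), by simp⟩
  have hI : (Ideal.span {(⟨(p : ℂ), hpA⟩ : A)} : Ideal A) ≠ ⊤ := by
    intro h
    have h1 : (1 : A) ∈ Ideal.span {(⟨(p : ℂ), hpA⟩ : A)} := by
      rw [h]
      trivial
    obtain ⟨a, ha⟩ := Ideal.mem_span_singleton'.mp h1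
    obtain ⟨m, hm⟩ := a.2
    have h2 : (a : ℂ) * (p : ℂ) = 1 := by
      have := congrArg Subtype.val ha
      simpa using this
    rw [← hm] at h2
    have h3 : ((m * (p : ℤ) : ℤ) : ℂ) = ((1 : ℤ) : ℂ) := by
      push_cast
      simpa using h2
    have h4 : m * (p : ℤ) = 1 := by exact_mod_cast h3
    have h5 : (p : ℤ) ∣ 1 := ⟨m, by rw [mul_comm]; exact h4.symm⟩
    have h6 : p ∣ 1 := by exact_mod_cast h5
    exact hp.one_lt.ne' (Nat.dvd_one.mp h6)
  obtain ⟨B, -, hB⟩ := Ideal.image_subset_nonunits_valuationSubring _ hI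
  refine ⟨B, ?_⟩
  have h : (p : ℂ) ∈ B.nonunits :=
    hB ⟨⟨(p : ℂ), hpA⟩, Ideal.subset_span rfl, rfl⟩
  exact B.mem_nonunits_iff.mp h

theorem val_int_le (B : ValuationSubring ℂ) (m : ℤ) : B.valuation (m : ℂ) ≤ 1 := by
  exact B.valuation_le_one (m : B)

/-- an integer prime to `p` is a unit of `B` -/
theorem val_int_unit {p : ℕ} (hp : p.Prime) (B : ValuationSubring ℂ)
    (hB : B.valuation (p : ℂ) < 1) {n : ℤ} (hn : ¬ (p : ℤ) ∣ n) : B.valuation (n : ℂ) = 1 := by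
  have hle := val_int_le B
  have hcop : IsCoprime (p : ℤ) n := (Nat.prime_iff_prime_int.1 hp).coprime_iff_not_dvd.2 hn
  obtain ⟨b, a, hab⟩ := hcop
  by_contra hne
  have hlt : B.valuation (n : ℂ) < 1 := lt_of_le_of_ne (hle n) hne
  have h1 : ((b : ℂ) * (p : ℂ) + (a : ℂ) * (n : ℂ)) = 1 := by
    exact_mod_cast congrArg (Int.cast : ℤ → ℂ) hab
  have h2 : B.valuation ((a : ℂ) * (n : ℂ)) < 1 := by
    rw [map_mul]
    exact mul_lt_one_of_nonneg_of_lt_one_right (hle a) zero_le hlt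
  have h3 : B.valuation ((b : ℂ) * (p : ℂ)) < 1 := by
    rw [map_mul]
    exact mul_lt_one_of_nonneg_of_lt_one_right (hle b) zero_le hB
  have h4 := Valuation.map_add_lt B.valuation h3 h2
  rw [h1, map_one] at h4
  exact lt_irrefl _ h4

theorem val_int {p : ℕ} (hp : p.Prime) (B : ValuationSubring ℂ)
    (hB : B.valuation (p : ℂ) < 1) {n : ℤ} (hn : n ≠ 0) :
    B.valuation (n : ℂ) = B.valuation (p : ℂ) ^ padicValInt p n := by
  have : Fact p.Prime := ⟨hp⟩
  obtain ⟨m, hm⟩ : (p : ℤ) ^ padicValInt p n ∣ n := padicValInt_dvd n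
  have h1 : ¬ (p : ℤ) ∣ m := by
    rintro ⟨k, rfl⟩
    have h2 : (p : ℤ) ^ (padicValInt p n + 1) ∣ n := ⟨k, by rw [pow_succ]; rw [mul_assoc]; exact hm⟩
    have h3 := (padicValInt_dvd_iff (padicValInt p n + 1) n).1 h2
    rcases h3 with h3 | h3
    · exact hn h3
    · omega
  have h2 : (n : ℂ) = (p : ℂ) ^ padicValInt p n * (m : ℂ) := by
    exact_mod_cast congrArg (Int.cast : ℤ → ℂ) hm
  rw [h2, map_mul, map_pow, val_int_unit hp B hB h1, mul_one]

/-- algebraic integers are in `B` -/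
theorem val_integral (B : ValuationSubring ℂ) {x : ℂ} (hx : IsIntegral ℤ x) :
    B.valuation x ≤ 1 := by
  have h1 : IsIntegral B x := hx.tower_top
  obtain ⟨y, hy⟩ := IsIntegrallyClosed.isIntegral_iff.mp h1
  rw [← hy]
  exact B.valuation_le_one y

/-- a root of unity has valuation one -/
theorem val_root_one (B : ValuationSubring ℂ) {x : ℂ} {m : ℕ} (hm : m ≠ 0) (hx : x ^ m = 1) :
    B.valuation x = 1 := by
  have h1 : B.valuation x ^ m = 1 := by rw [← map_pow, hx, map_one]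
  exact (pow_eq_one_iff_of_nonneg zero_le hm).1 h1

end HYF
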