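import Mathlib
import Pool.Agent.HYF.Defs
import Pool.Agent.HYF.Val

/-! Common definitions of the project HYF (full support clause of HyperellipticIso). -/

namespace HYF

open Polynomial

/-- the group of the nonzero rational functions of `x` -/
def xFull {K : Type} [Field K] [CharZero K] (x : K) : Subgroup Kˣ :=
  Subgroup.closure {u | ∃ p : ℚ[X], (u : K) = aeval x p}

/-- `b / η` has order a power of `p` for a root `η` of `T² - κ T + ε` -/
def Bad (κ ε : ℤ) (p : ℕ) (b : ℂ) : Prop :=
  ∃ (j : ℕ) (η : ℂ), η ^ 2 - κ * η + ε = 0 ∧ b ^ p ^ j = η ^ p ^ j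

/-- the field `ℚ(ζ)` -/
noncomputable abbrev Qz (ζ : ℂ) : IntermediateField ℚ ℂ := IntermediateField.adjoin ℚ {ζ}

/-- Dickson polynomials: `D(t + ε/t) = t^m + (ε/t)^m` -/
theorem exists_dickson (ε : ℤ) (m : ℕ) : ∃ D : ℤ[X], ∀ t : ℂ, t ≠ 0 →
    aeval (t + ε / t) D = t ^ m + (ε / t) ^ m := by
  induction m using Nat.strong_induction_on with
  | _ m ih =>
    rcases m with _ | _ | m
    · refine ⟨C 2, fun t _ => ?_⟩
      rw [aeval_C, pow_zero, pow_zero]
      norm_num
    · refine ⟨X, fun t _ => ?_⟩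
      rw [aeval_X, pow_one, pow_one]
    · obtain ⟨D, hD⟩ := ih m (by omega)
      obtain ⟨D', hD'⟩ := ih (m + 1) (by omega)
      refine ⟨X * D' - C ε * D, fun t ht => ?_⟩
      rw [map_sub, map_mul, map_mul, aeval_X, aeval_C, hD t ht, hD' t ht]
      have h1 : (algebraMap ℤ ℂ) ε = (ε : ℂ) := rfl
      rw [h1]
      have h2 : (ε : ℂ) = t * (ε / t) := by
        rw [mul_div_assoc']
        exact (mul_div_cancel_left₀ _ ht).symm
      generalize (ε : ℂ) / t = s at h2 ⊢
      rw [h2]
      ring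

/-- roots of `T² - κ T + ε` in the cases of the theorem -/
theorem eta_pow12 {κ ε : ℤ} (hκ : (ε = 1 ∧ |κ| ≤ 2) ∨ (ε = -1 ∧ κ = 0)) {b : ℂ}
    (h : b ^ 2 - κ * b + ε = 0) : b ^ 12 = 1 := by
  rcases hκ with ⟨h1, h2⟩ | ⟨h1, h2⟩
  · subst h1
    obtain ⟨h3, h4⟩ := abs_le.1 h2
    have h5 : κ = -2 ∨ κ = -1 ∨ κ = 0 ∨ κ = 1 ∨ κ = 2 := by omega
    rcases h5 with rfl | rfl | rfl | rfl | rfl
    · push_cast at h
      have h6 : (b + 1) ^ 2 = 0 := by linear_combination h
      have h7 : b = -1 := by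
        have := pow_eq_zero_iff (two_ne_zero) |>.1 h6
        linear_combination this
      rw [h7]
      norm_num
    · push_cast at h
      have h6 : b ^ 3 = 1 := by linear_combination (b - 1) * h
      calc b ^ 12 = (b ^ 3) ^ 4 := by ring
        _ = 1 := by rw [h6]; norm_num
    · push_cast at h
      have h6 : b ^ 2 = -1 := by linear_combination h
      calc b ^ 12 = (b ^ 2) ^ 6 := by ring
        _ = 1 := by rw [h6]; norm_num
    · push_cast at h
      have h6 : b ^ 3 = -1 := by linear_combination (b + 1) * h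
      calc b ^ 12 = (b ^ 3) ^ 4 := by ring
        _ = 1 := by rw [h6]; norm_num
    · push_cast at h
      have h6 : (b - 1) ^ 2 = 0 := by linear_combination h
      have h7 : b = 1 := by
        have := pow_eq_zero_iff (two_ne_zero) |>.1 h6
        linear_combination this
      rw [h7]
      norm_num
  · subst h1
    subst h2
    push_cast at h
    have h6 : b ^ 2 = 1 := by linear_combination h
    calc b ^ 12 = (b ^ 2) ^ 6 := by ring
      _ = 1 := by rw [h6]; norm_num

end HYF
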