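import Mathlib
import Pool.Agent.HYF.Base

/-! The predicate `Bad`: it cannot hold for two different primes unless `b` is a root of `T² - κ T + ε`, and it is
invariant under conjugation. -/

namespace HYF

open Polynomial

private theorem BadB_om {κ ε : ℤ} (hκ : (ε = 1 ∧ |κ| ≤ 2) ∨ (ε = -1 ∧ κ = 0)) {x z : ℂ}
    (hx : x ^ 2 - κ * x + ε = 0) (hz : z ^ 2 - κ * z + ε = 0) : ∃ k : ℕ, k.Prime ∧ x ^ k = z ^ k := by
  rcases hκ with ⟨h1, h2⟩ | ⟨h1, h2⟩
  · subst h1
    obtain ⟨h3, h4⟩ := abs_le.1 h2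
    have h5 : κ = -2 ∨ κ = -1 ∨ κ = 0 ∨ κ = 1 ∨ κ = 2 := by omega
    rcases h5 with rfl | rfl | rfl | rfl | rfl
    · push_cast at hx hz
      have h6 : (x + 1) ^ 2 = 0 := by linear_combination hx
      have h7 : (z + 1) ^ 2 = 0 := by linear_combination hz
      have h8 : x = -1 := by
        have := pow_eq_zero_iff (two_ne_zero) |>.1 h6
        linear_combination this
      have h9 : z = -1 := by
        have := pow_eq_zero_iff (two_ne_zero) |>.1 h7
        linear_combination this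
      exact ⟨2, Nat.prime_two, by rw [h8, h9]⟩
    · push_cast at hx hz
      exact ⟨3, Nat.prime_three, by linear_combination (x - 1) * hx - (z - 1) * hz⟩
    · push_cast at hx hz
      exact ⟨2, Nat.prime_two, by linear_combination hx - hz⟩
    · push_cast at hx hz
      exact ⟨3, Nat.prime_three, by linear_combination (x + 1) * hx - (z + 1) * hz⟩
    · push_cast at hx hz
      have h6 : (x - 1) ^ 2 = 0 := by linear_combination hx
      have h7 : (z - 1) ^ 2 = 0 := by linear_combination hz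
      have h8 : x = 1 := by
        have := pow_eq_zero_iff (two_ne_zero) |>.1 h6
        linear_combination this
      have h9 : z = 1 := by
        have := pow_eq_zero_iff (two_ne_zero) |>.1 h7
        linear_combination this
      exact ⟨2, Nat.prime_two, by rw [h8, h9]⟩
  · subst h1
    subst h2
    push_cast at hx hz
    exact ⟨2, Nat.prime_two, by linear_combination hx - hz⟩

private theorem BadB_e0 {κ ε : ℤ} (hκ : (ε = 1 ∧ |κ| ≤ 2) ∨ (ε = -1 ∧ κ = 0)) {x : ℂ}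
    (hx : x ^ 2 - κ * x + ε = 0) : x ≠ 0 := by
  rintro rfl
  have h1 : (ε : ℂ) = 0 := by linear_combination hx
  have h2 : ε = 0 := by exact_mod_cast h1
  rcases hκ with ⟨h3, _⟩ | ⟨h3, _⟩ <;> omega

private theorem BadB_cop {x z : ℂ} (hz : z ≠ 0) {m n : ℕ} (h : Nat.Coprime m n) (hm : x ^ m = z ^ m)
    (hn : x ^ n = z ^ n) : x = z := by
  have h1 : (x / z) ^ m = 1 := by
    rw [div_pow, hm, div_self (pow_ne_zero _ hz)]
  have h2 : (x / z) ^ n = 1 := by
    rw [div_pow, hn, div_self (pow_ne_zero _ hz)]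
  have h3 := pow_gcd_eq_one.2 ⟨h1, h2⟩
  rw [Nat.Coprime.gcd_eq_one h, pow_one, div_eq_one_iff_eq hz] at h3
  exact h3

theorem not_bad_both {κ ε : ℤ} (hκ : (ε = 1 ∧ |κ| ≤ 2) ∨ (ε = -1 ∧ κ = 0)) {p q : ℕ}
    (hp : p.Prime) (hq : q.Prime) (hpq : p ≠ q) {b : ℂ} (hb : b ^ 2 - κ * b + ε ≠ 0) :
    ¬ Bad κ ε p b ∨ ¬ Bad κ ε q b := by
  by_contra hc
  push Not at hc
  obtain ⟨⟨i, x, hx, hi⟩, ⟨j, z, hz, hj⟩⟩ := hc
  obtain ⟨k, hk, hxz⟩ := BadB_om hκ hx hz
  have hx0 := BadB_e0 hκ hx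
  have hz0 := BadB_e0 hκ hz
  have h1 : (b ^ k) = x ^ k := by
    refine BadB_cop (pow_ne_zero k hx0) (m := p ^ i) (n := q ^ j) ?_ ?_ ?_
    · exact Nat.Coprime.pow _ _ ((Nat.coprime_primes hp hq).2 hpq)
    · rw [← pow_mul, mul_comm, pow_mul, hi, ← pow_mul, mul_comm, pow_mul]
    · rw [hxz, ← pow_mul, mul_comm, pow_mul, hj, ← pow_mul, mul_comm, pow_mul]
  by_cases h2 : k = p
  · have h3 : k ≠ q := fun h => hpq (h2.symm.trans h)
    have h4 : b = z := BadB_cop hz0 (m := k) (n := q ^ j)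
      (Nat.Coprime.pow_right _ ((Nat.coprime_primes hk hq).2 h3)) (h1.trans hxz) hj
    exact hb (h4 ▸ hz)
  · have h4 : b = x := BadB_cop hx0 (m := k) (n := p ^ i)
      (Nat.Coprime.pow_right _ ((Nat.coprime_primes hk hp).2 h2)) h1 hi
    exact hb (h4 ▸ hx)

theorem bad_conj {κ ε : ℤ} (hκ : (ε = 1 ∧ |κ| ≤ 2) ∨ (ε = -1 ∧ κ = 0)) {p : ℕ} {L : Type}
    [Field L] (σ τ : L →+* ℂ) {y : L} (h : Bad κ ε p (σ y)) : Bad κ ε p (τ y) := by
  obtain ⟨j, η, hη, hj⟩ := h
  have h0 := BadB_e0 hκ hη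
  obtain ⟨D, hD⟩ := exists_dickson ε (p ^ j)
  have h1 : η + ε / η = κ := by
    field_simp
    linear_combination hη
  have h2 := hD η h0
  rw [h1] at h2
  have h3 : aeval (κ : ℂ) D = ((D.eval κ : ℤ) : ℂ) := by
    have := Polynomial.eval_intCast_map (Int.castRingHom ℂ) D κ
    rw [aeval_def, ← eval_map]
    exact this
  rw [h3] at h2
  set V : ℤ := D.eval κ with hV
  set P : ℕ := p ^ j with hP
  have h4 : η * (ε / η) = ε := mul_div_cancel₀ _ h0
  have h5 : η ^ P * (ε / η) ^ P = (ε : ℂ) ^ P := by rw [← mul_pow, h4]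
  have h6 : σ (y ^ P * y ^ P - V * y ^ P + (ε : L) ^ P) = 0 := by
    simp only [map_add, map_sub, map_mul, map_pow, map_intCast]
    rw [hj]
    linear_combination (-(η ^ P)) * h2 - h5
  have h7 : y ^ P * y ^ P - V * y ^ P + (ε : L) ^ P = 0 := (map_eq_zero σ).1 h6
  have h8 : τ (y ^ P * y ^ P - V * y ^ P + (ε : L) ^ P) = 0 := by rw [h7, map_zero]
  simp only [map_add, map_sub, map_mul, map_pow, map_intCast] at h8
  have h9 : ((τ y) ^ P - η ^ P) * ((τ y) ^ P - (ε / η) ^ P) = 0 := by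
    linear_combination h8 + ((τ y) ^ P) * h2 + h5
  rcases mul_eq_zero.1 h9 with h10 | h10
  · exact ⟨j, η, hη, by linear_combination h10⟩
  · refine ⟨j, ε / η, ?_, by linear_combination h10⟩
    have h11 : (ε / η) ^ 2 - κ * (ε / η) + ε = (ε / η ^ 2) * (η ^ 2 - κ * η + ε) := by
      field_simp
      ring
    rw [h11, hη, mul_zero]

end HYF
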