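import Mathlib
import Pool.Agent.HYF.Base

/-! Differences of roots of unity. -/

namespace HYF

private lemma del_le (A : ValuationSubring ℂ) {w : ℂ} (hw : A.valuation w ≤ 1) (k : ℕ) :
    A.valuation (1 - w ^ k) ≤ A.valuation (1 - w) := by
  have h1 : 1 - w ^ k = (∑ i ∈ Finset.range k, w ^ i) * (1 - w) := (geom_sum_mul_neg w k).symm
  rw [h1, map_mul]
  refine mul_le_of_le_one_left' ?_
  refine Valuation.map_sum_le _ fun i _ => ?_
  rw [map_pow]
  exact pow_le_one' hw i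

theorem pow_of_val {p : ℕ} (hp : p.Prime) (A : ValuationSubring ℂ)
    (hA : A.valuation (p : ℂ) < 1) {u : ℂ} {m : ℕ} (hm : m ≠ 0) (hu : u ^ m = 1)
    (h : A.valuation (1 - u) < 1) : ∃ j : ℕ, u ^ p ^ j = 1 := by
  obtain ⟨j, m', hm', hmm⟩ := Nat.exists_eq_pow_mul_and_not_dvd hm p hp.ne_one
  refine ⟨j, ?_⟩
  have hv := val_root_one A hm hu
  have h1 : A.valuation (1 - u ^ p ^ j) < 1 := (del_le A hv.le _).trans_lt h
  generalize hu' : u ^ p ^ j = u' at h1 ⊢
  have h2 : u' ^ m' = 1 := by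
    rw [← hu', ← pow_mul, ← hmm, hu]
  have hm0 : m' ≠ 0 := by
    rintro rfl
    exact hm' (dvd_zero _)
  have hv' := val_root_one A hm0 h2
  by_contra hne
  have h3 : (∑ i ∈ Finset.range m', u' ^ i) * (1 - u') = 0 := by
    rw [geom_sum_mul_neg, h2, sub_self]
  have h4 : ∑ i ∈ Finset.range m', u' ^ i = 0 :=
    (mul_eq_zero.1 h3).resolve_right (sub_ne_zero.2 (Ne.symm hne))
  have h5 : ((m' : ℤ) : ℂ) = ∑ i ∈ Finset.range m', (1 - u' ^ i) := by
    rw [Finset.sum_sub_distrib, h4, sub_zero]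
    simp
  have h6 : A.valuation ((m' : ℤ) : ℂ) < 1 := by
    rw [h5]
    exact Valuation.map_sum_lt _ one_ne_zero fun i _ => (del_le A hv'.le i).trans_lt h1
  have h7 : ¬ (p : ℤ) ∣ (m' : ℤ) := by
    rw [Int.natCast_dvd_natCast]
    exact hm'
  rw [val_int_unit hp A hA h7] at h6
  exact lt_irrefl _ h6

theorem val_del {κ ε : ℤ} (hκ : (ε = 1 ∧ |κ| ≤ 2) ∨ (ε = -1 ∧ κ = 0)) {p : ℕ} (hp : p.Prime)
    (A : ValuationSubring ℂ) (hA : A.valuation (p : ℂ) < 1) {b : ℂ} {m : ℕ} (hm : m ≠ 0)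
    (hb : b ^ m = 1) (hbad : ¬ Bad κ ε p b) : A.valuation (b + ε / b - κ) = 1 := by
  have hb0 : b ≠ 0 := by
    rintro rfl
    rw [zero_pow hm] at hb
    exact zero_ne_one hb
  have hε : (ε : ℂ) ^ 2 = 1 := by
    rcases hκ with h0 | h0 <;> rw [h0.1] <;> norm_num
  have hε0 : (ε : ℂ) ≠ 0 := by
    intro h0
    rw [h0] at hε
    norm_num at hε
  obtain ⟨η, hη⟩ : ∃ η : ℂ, η ^ 2 - κ * η + ε = 0 := by
    obtain ⟨s, hs⟩ := IsAlgClosed.exists_pow_nat_eq ((κ : ℂ) ^ 2 / 4 - ε) (n := 2) (by norm_num)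
    exact ⟨κ / 2 + s, by linear_combination hs⟩
  have hη0 : η ≠ 0 := by
    rintro rfl
    apply hε0
    linear_combination hη
  have hη12 := eta_pow12 hκ hη
  have hκη : (κ : ℂ) = η + ε / η := by
    field_simp
    linear_combination (-1 : ℂ) * hη
  have hη' : (ε / η : ℂ) ^ 2 - κ * (ε / η) + ε = 0 := by
    rw [hκη]
    field_simp
    ring
  have hfac : b + ε / b - κ = b * (1 - η / b) * (1 - ε / (b * η)) := by
    rw [hκη]
    field_simp
    ring
  have hvb := val_root_one A hm hb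
  -- first factor
  have hu1 : (η / b) ^ (12 * m) = 1 := by
    rw [div_pow, pow_mul, hη12, one_pow, mul_comm 12 m, pow_mul, hb, one_pow, div_one]
  have hu2 : (ε / (b * η)) ^ (12 * m) = 1 := by
    have h1 : (ε : ℂ) ^ (12 * m) = 1 := by
      have : 12 * m = 2 * (6 * m) := by ring
      rw [this, pow_mul, hε, one_pow]
    rw [div_pow, mul_pow, h1, pow_mul η, hη12, one_pow, mul_one, mul_comm 12 m, pow_mul b, hb,
      one_pow, div_one]
  have h12m : 12 * m ≠ 0 := by omega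
  have key : ∀ u : ℂ, u ^ (12 * m) = 1 → (∀ j : ℕ, u ^ p ^ j ≠ 1) → A.valuation (1 - u) = 1 := by
    intro u hu hne
    refine le_antisymm ?_ (not_lt.1 fun h => ?_)
    · refine (Valuation.map_sub _ _ _).trans ?_
      rw [map_one, val_root_one A h12m hu, max_self]
    · obtain ⟨j, hj⟩ := pow_of_val hp A hA h12m hu h
      exact hne j hj
  have h1 : A.valuation (1 - η / b) = 1 := by
    refine key _ hu1 fun j hj => hbad ⟨j, η, hη, ?_⟩
    rw [div_pow] at hj
    exact ((div_eq_one_iff_eq (pow_ne_zero _ hb0)).1 hj).symm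
  have h2 : A.valuation (1 - ε / (b * η)) = 1 := by
    refine key _ hu2 fun j hj => hbad ⟨j, ε / η, hη', ?_⟩
    have h3 : ε / (b * η) = (ε / η) / b := by
      field_simp
    rw [h3, div_pow] at hj
    exact ((div_eq_one_iff_eq (pow_ne_zero _ hb0)).1 hj).symm
  rw [hfac, map_mul, map_mul, hvb, h1, h2, one_mul, one_mul]

end HYF
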