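import Mathlib
import Pool.Agent.HYI.Base
import Pool.Agent.HYF.Base
import Pool.Agent.HYF.Del
import Pool.Agent.HYF.BadB

/-! The valuation of the conjugates of `a`: if `f(a) - κ = c ∏ (P i)(a)^(e i)` has valuation one at a
place over `p`, `p ∣ c`, then `v(a) > 1` and `v(a)^(∑ e_i deg P_i) v(p)^(v_p(c)) = 1` (`val_root`). This applies to
all conjugates `σ a`, when `b` is a root of unity which is not `Bad` (`conj_val`). -/

namespace HYF

open Polynomial HYI

private lemma conj_aeval_fp {r : ℕ} (P : Fin (r + 1) → ℤ[X]) (e : Fin (r + 1) → ℕ) (c κ : ℤ)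
    (a : ℂ) : aeval a (fp P e c κ) - κ = c * ∏ i, aeval a (P i) ^ e i := by
  rw [fp, map_add, map_mul, map_prod, aeval_C, aeval_C]
  simp only [map_pow]
  have h1 : ∀ z : ℤ, (algebraMap ℤ ℂ) z = (z : ℂ) := fun z => rfl
  rw [h1, h1]
  ring

private lemma conj_val_le (A : ValuationSubring ℂ) {a : ℂ} (ha : A.valuation a ≤ 1) (Q : ℤ[X]) :
    A.valuation (aeval a Q) ≤ 1 := by
  rw [aeval_eq_sum_range]
  refine Valuation.map_sum_le _ fun i _ => ?_
  rw [zsmul_eq_mul, map_mul, map_pow]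
  exact mul_le_one' (val_int_le A _) (pow_le_one' ha i)

private lemma conj_val_gt (A : ValuationSubring ℂ) {a : ℂ} (ha : 1 < A.valuation a) {Q : ℤ[X]}
    (hQ : Q.Monic) : A.valuation (aeval a Q) = A.valuation a ^ Q.natDegree := by
  have h0 : A.valuation a ≠ 0 := (lt_trans zero_lt_one ha).ne'
  rw [aeval_eq_sum_range, Finset.sum_range_succ, hQ.coeff_natDegree, one_smul]
  have h1 : A.valuation (∑ i ∈ Finset.range Q.natDegree, Q.coeff i • a ^ i) <
      A.valuation (a ^ Q.natDegree) := by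
    rw [map_pow]
    refine Valuation.map_sum_lt _ (pow_ne_zero _ h0) fun i hi => ?_
    rw [zsmul_eq_mul, map_mul, map_pow]
    calc A.valuation (Q.coeff i : ℂ) * A.valuation a ^ i ≤ 1 * A.valuation a ^ i := by
          gcongr
          exact val_int_le A _
      _ = A.valuation a ^ i := one_mul _
      _ < A.valuation a ^ Q.natDegree := pow_lt_pow_right₀ ha (Finset.mem_range.1 hi)
  rw [Valuation.map_add_eq_of_lt_right _ h1, map_pow]

theorem val_root {r : ℕ} {P : Fin (r + 1) → ℤ[X]} {e : Fin (r + 1) → ℕ} {c κ : ℤ}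
    (hm : ∀ i, (P i).Monic) (hc : c ≠ 0) {p : ℕ} (hp : p.Prime) (hpc : padicValInt p c ≠ 0)
    (A : ValuationSubring ℂ) (hA : A.valuation (p : ℂ) < 1) {a : ℂ}
    (h : A.valuation (aeval a (fp P e c κ) - κ) = 1) :
    A.valuation a ^ (∑ i, e i * (P i).natDegree) * A.valuation (p : ℂ) ^ padicValInt p c = 1 := by
  rw [conj_aeval_fp, map_mul, map_prod, val_int hp A hA hc] at h
  rcases le_or_gt (A.valuation a) 1 with h1 | h1
  · exfalso
    have h2 : A.valuation (p : ℂ) ^ padicValInt p c < 1 := pow_lt_one' hA hpc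
    have h3 : ∏ i, A.valuation (aeval a (P i) ^ e i) ≤ 1 := by
      refine Finset.prod_le_one' fun i _ => ?_
      rw [map_pow]
      exact pow_le_one' (conj_val_le A h1 _) _
    have h4 : A.valuation (p : ℂ) ^ padicValInt p c * ∏ i, A.valuation (aeval a (P i) ^ e i) < 1 :=
      lt_of_le_of_lt (mul_le_of_le_one_right' h3) h2
    exact h4.ne h
  · have h2 : ∏ i, A.valuation (aeval a (P i) ^ e i) =
        A.valuation a ^ (∑ i, e i * (P i).natDegree) := by
      rw [← Finset.prod_pow_eq_pow_sum]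
      refine Finset.prod_congr rfl fun i _ => ?_
      rw [map_pow, conj_val_gt A h1 (hm i), ← pow_mul, mul_comm]
    rw [← h2, mul_comm]
    exact h

theorem conj_val {r : ℕ} {P : Fin (r + 1) → ℤ[X]} {e : Fin (r + 1) → ℕ} {c κ ε : ℤ}
    (hm : ∀ i, (P i).Monic) (hc : c ≠ 0) (hκ : (ε = 1 ∧ |κ| ≤ 2) ∨ (ε = -1 ∧ κ = 0)) {p : ℕ}
    (hp : p.Prime) (hpc : padicValInt p c ≠ 0) (A : ValuationSubring ℂ)
    (hA : A.valuation (p : ℂ) < 1) {L : Type} [Field L] (σ τ : L →+* ℂ) {a b : L}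
    (hab : b ^ 2 - aeval a (fp P e c κ) * b + ε = 0) {m : ℕ} (hm0 : m ≠ 0) (hb : b ^ m = 1)
    (hbad : ¬ Bad κ ε p (τ b)) :
    A.valuation (σ a) ^ (∑ i, e i * (P i).natDegree) * A.valuation (p : ℂ) ^ padicValInt p c =
      1 := by
  have h1 : σ b ^ m = 1 := by rw [← map_pow, hb, map_one]
  have hb0 : σ b ≠ 0 := by
    intro h0
    rw [h0, zero_pow hm0] at h1
    exact zero_ne_one h1
  have h2 : ¬ Bad κ ε p (σ b) := fun h => hbad (bad_conj hκ σ τ h)
  have h3 : σ (aeval a (fp P e c κ)) = aeval (σ a) (fp P e c κ) := by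
    rw [aeval_def, aeval_def, hom_eval₂]
    congr 1
    exact RingHom.ext_int _ _
  have h4 : σ b ^ 2 - aeval (σ a) (fp P e c κ) * σ b + ε = 0 := by
    have := congrArg σ hab
    rw [map_add, map_sub, map_mul, map_pow, h3, map_intCast, map_zero] at this
    exact this
  have h5 : aeval (σ a) (fp P e c κ) = σ b + ε / σ b := by
    field_simp
    linear_combination -h4
  refine val_root (κ := κ) hm hc hp hpc A hA ?_
  rw [h5]
  exact val_del hκ hp A hA hm0 h1 h2

end HYF
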