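import Mathlib
import Pool.Agent.HYF.Base

/-! HYF-DegI (an inequality of field degrees, Mathlib only).

`le_deg`: `F = ℚ(b) ∋ s`, `E = ℚ(a) ∋ s`. `[ℚ(a) : ℚ] = [ℚ(a) : ℚ(s)] [ℚ(s) : ℚ]` and the minimal polynomial of `a`
over `ℚ(b)` divides that over `ℚ(s) ≤ ℚ(b)`. -/

namespace HYF

open Polynomial

private theorem degI_dvd {a : ℂ} {A F : IntermediateField ℚ ℂ} (h : A ≤ F)
    (ha : IsIntegral A a) : (minpoly F a).natDegree ≤ (minpoly A a).natDegree := by
  set φ : A →+* F := (IntermediateField.inclusion h : A →+* F) with hφ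
  have hdvd : minpoly F a ∣ (minpoly A a).map φ := by
    refine minpoly.dvd _ _ ?_
    rw [aeval_def, eval₂_map]
    have h1 : (algebraMap F ℂ).comp φ = algebraMap A ℂ := rfl
    rw [h1]
    exact minpoly.aeval A a
  have hm : ((minpoly A a).map φ).Monic := (minpoly.monic ha).map φ
  have h2 := natDegree_le_of_dvd hdvd hm.ne_zero
  rwa [(minpoly.monic ha).natDegree_map] at h2

theorem le_deg {a b s : ℂ} (ha : IsIntegral ℚ a) (hb : IsIntegral ℚ b) (hs : s ∈ Qz a)
    (hs' : s ∈ Qz b) :
    (minpoly (Qz b) a).natDegree * (minpoly ℚ s).natDegree ≤ (minpoly ℚ a).natDegree := by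
  have hle : Qz s ≤ Qz b := IntermediateField.adjoin_simple_le_iff.2 hs'
  have hfa : FiniteDimensional ℚ (Qz a) := IntermediateField.adjoin.finiteDimensional ha
  have hsi : IsIntegral ℚ s := by
    have h1 : IsIntegral ℚ (⟨s, hs⟩ : Qz a) := IsIntegral.of_finite ℚ _
    exact h1.map (Qz a).val
  have haA : IsIntegral (Qz s) a := ha.tower_top
  have h1 : (minpoly (Qz b) a).natDegree ≤ (minpoly (Qz s) a).natDegree := degI_dvd hle haA
  have h2 : Module.finrank ℚ (Qz s) * Module.finrank (Qz s) (IntermediateField.adjoin (Qz s) {a}) =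
      Module.finrank ℚ (IntermediateField.adjoin (Qz s) {a}) :=
    Module.finrank_mul_finrank ℚ (Qz s) (IntermediateField.adjoin (Qz s) {a})
  have h3 : IntermediateField.restrictScalars ℚ (IntermediateField.adjoin (Qz s) {a}) = Qz a := by
    refine (IntermediateField.adjoin_simple_adjoin_simple ℚ s a).trans ?_
    refine le_antisymm (IntermediateField.adjoin_le_iff.2 ?_) (IntermediateField.adjoin.mono ℚ _ _ ?_)
    · rintro x (rfl | hx)
      · exact hs
      · rw [Set.mem_singleton_iff] at hx
        rw [hx]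
        exact IntermediateField.mem_adjoin_simple_self ℚ a
    · rw [Set.singleton_subset_iff]
      exact Set.mem_insert_of_mem _ (Set.mem_singleton a)
  have h4 : Module.finrank ℚ (IntermediateField.adjoin (Qz s) {a}) =
      Module.finrank ℚ (Qz a) := by
    rw [← h3]
    rfl
  rw [h4, IntermediateField.adjoin.finrank hsi, IntermediateField.adjoin.finrank haA,
    IntermediateField.adjoin.finrank ha] at h2
  calc (minpoly (Qz b) a).natDegree * (minpoly ℚ s).natDegree
      ≤ (minpoly (Qz s) a).natDegree * (minpoly ℚ s).natDegree := Nat.mul_le_mul_right _ h1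
    _ = (minpoly ℚ a).natDegree := by rw [← h2, mul_comm]

end HYF
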