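import Mathlib
import Pool.Agent.HYF.Base

/-! HYF-UnrA (Frobenius on `ℤ[ζ]`, `ζ^n = 1`, `n` prime to `p`). With `q = p^φ(n)` every `z ∈ ℤ[ζ]`
satisfies `z^q ≡ z` modulo `p ℤ[ζ]`, by induction along the adjunction. -/

namespace HYF

private lemma unrA_int {p : ℕ} (hp : p.Prime) (k : ℕ) (m : ℤ) :
    ∃ t : ℤ, m ^ (p ^ k) - m = p * t := by
  have := Fact.mk hp
  have h : ((m ^ (p ^ k) - m : ℤ) : ZMod p) = 0 := by
    push_cast
    rw [ZMod.pow_card_pow, sub_self]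
  obtain ⟨t, ht⟩ := (ZMod.intCast_zmod_eq_zero_iff_dvd _ p).1 h
  exact ⟨t, ht⟩

theorem unr_frob {p : ℕ} (hp : p.Prime) {n : ℕ} (hn : n ≠ 0) (hpn : p.Coprime n) {ζ : ℂ}
    (hζ : ζ ^ n = 1) : ∃ q : ℕ, 2 ≤ q ∧ ∀ z ∈ Algebra.adjoin ℤ {ζ},
      ∃ t ∈ Algebra.adjoin ℤ {ζ}, z ^ q - z = p * t := by
  have hφ : 0 < n.totient := Nat.totient_pos.2 (Nat.pos_of_ne_zero hn)
  refine ⟨p ^ n.totient, ?_, ?_⟩
  · calc 2 ≤ p := hp.two_le
      _ = p ^ 1 := (pow_one p).symm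
      _ ≤ p ^ n.totient := Nat.pow_le_pow_right hp.pos hφ
  · have hζq : ζ ^ (p ^ n.totient) = ζ := by
      have h1 : p ^ n.totient ≡ 1 [MOD n] := Nat.ModEq.pow_totient hpn
      have h2 : 1 ≤ p ^ n.totient := Nat.one_le_pow _ _ hp.pos
      obtain ⟨c, hc⟩ := (Nat.modEq_iff_dvd' h2).1 h1.symm
      have h3 : p ^ n.totient = n * c + 1 := by omega
      rw [h3, pow_add, pow_mul, hζ, one_pow, one_mul, pow_one]
    intro z hz
    induction hz using Algebra.adjoin_induction with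
    | mem x hx =>
      rw [Set.mem_singleton_iff] at hx
      subst hx
      exact ⟨0, Subalgebra.zero_mem _, by rw [hζq]; ring⟩
    | algebraMap m =>
      obtain ⟨t, ht⟩ := unrA_int hp n.totient m
      refine ⟨(algebraMap ℤ ℂ) t, Subalgebra.algebraMap_mem _ t, ?_⟩
      have h := congrArg (fun a : ℤ => (a : ℂ)) ht
      simp only [Int.cast_sub, Int.cast_pow, Int.cast_mul, Int.cast_natCast] at h
      simpa using h
    | add x y hx hy ihx ihy =>
      obtain ⟨a, ha, hxa⟩ := ihx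
      obtain ⟨b, hb, hyb⟩ := ihy
      obtain ⟨r, hr⟩ := exists_add_pow_prime_pow_eq hp
        (⟨x, hx⟩ : Algebra.adjoin ℤ ({ζ} : Set ℂ)) ⟨y, hy⟩ n.totient
      have hr' := congrArg (fun w : Algebra.adjoin ℤ ({ζ} : Set ℂ) => (w : ℂ)) hr
      simp only [Subalgebra.coe_pow, Subalgebra.coe_add, Subalgebra.coe_mul] at hr'
      have hc : ((p : Algebra.adjoin ℤ ({ζ} : Set ℂ)) : ℂ) = (p : ℂ) := by norm_cast
      rw [hc] at hr'
      refine ⟨a + b + x * y * (r : ℂ), Subalgebra.add_mem _ (Subalgebra.add_mem _ ha hb)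
        (Subalgebra.mul_mem _ (Subalgebra.mul_mem _ hx hy) r.2), ?_⟩
      linear_combination hr' + hxa + hyb
    | mul x y hx hy ihx ihy =>
      obtain ⟨a, ha, hxa⟩ := ihx
      obtain ⟨b, hb, hyb⟩ := ihy
      refine ⟨a * y + b * x + (p : ℂ) * (a * b), ?_, ?_⟩
      · refine Subalgebra.add_mem _ (Subalgebra.add_mem _ (Subalgebra.mul_mem _ ha hy)
          (Subalgebra.mul_mem _ hb hx)) (Subalgebra.mul_mem _ ?_ (Subalgebra.mul_mem _ ha hb))
        exact Subalgebra.natCast_mem _ p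
      · have h1 : x ^ (p ^ n.totient) = x + p * a := by linear_combination hxa
        have h2 : y ^ (p ^ n.totient) = y + p * b := by linear_combination hyb
        rw [mul_pow, h1, h2]
        ring

end HYF
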