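import Mathlib
import Pool.Agent.HYF.Base
import Pool.Agent.HYF.UnrA

/-! HYF-UnrB: `p` is unramified in `ℚ(ζ)` if `ζ^n = 1`, `n` prime to `p`.

The value of an element of `ℤ[ζ]` is a power of the value of `p`, by induction with the Frobenius congruence `unr_frob`. -/

namespace HYF

private theorem unrb_int {n : ℕ} (hn : n ≠ 0) {ζ : ℂ} (hζ : ζ ^ n = 1) {z : ℂ}
    (hz : z ∈ Algebra.adjoin ℤ {ζ}) : IsIntegral ℤ z := by
  have h1 : IsIntegral ℤ ζ := by
    refine IsIntegral.of_pow (Nat.pos_of_ne_zero hn) ?_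
    rw [hζ]
    exact isIntegral_one
  have h2 : Algebra.adjoin ℤ {ζ} ≤ integralClosure ℤ ℂ :=
    Algebra.adjoin_le (Set.singleton_subset_iff.2 h1)
  exact h2 hz

private theorem unrb_low {p : ℕ} (hp : p.Prime) (A : ValuationSubring ℂ)
    (hA : A.valuation (p : ℂ) < 1) {z : ℂ} (hz : IsIntegral ℤ z) (h0 : z ≠ 0) :
    ∃ k : ℕ, A.valuation (p : ℂ) ^ k ≤ A.valuation z := by
  have h1 : (minpoly ℤ z).coeff 0 ≠ 0 := by
    intro h
    have h2 := minpoly.coeff_zero_ne_zero (A := ℚ) (x := z) hz.tower_top h0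
    rw [minpoly.isIntegrallyClosed_eq_field_fractions' ℚ hz, Polynomial.coeff_map, h, map_zero] at h2
    exact h2 rfl
  refine ⟨padicValInt p ((minpoly ℤ z).coeff 0), ?_⟩
  rw [← val_int hp A hA h1]
  have h2 : Polynomial.aeval z (minpoly ℤ z) = 0 := minpoly.aeval ℤ z
  rw [← Polynomial.divX_mul_X_add (minpoly ℤ z)] at h2
  rw [map_add, map_mul, Polynomial.aeval_X, Polynomial.aeval_C] at h2
  have h3 : (((minpoly ℤ z).coeff 0 : ℤ) : ℂ) = -(Polynomial.aeval z (minpoly ℤ z).divX * z) := by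
    have h4 : (algebraMap ℤ ℂ) ((minpoly ℤ z).coeff 0) = (((minpoly ℤ z).coeff 0 : ℤ) : ℂ) := rfl
    rw [h4] at h2
    linear_combination h2
  rw [h3, Valuation.map_neg, map_mul]
  have h5 : IsIntegral ℤ (Polynomial.aeval z (minpoly ℤ z).divX) := by
    have h6 : Algebra.adjoin ℤ {z} ≤ integralClosure ℤ ℂ :=
      Algebra.adjoin_le (Set.singleton_subset_iff.2 hz)
    exact h6 (Polynomial.aeval_mem_adjoin_singleton ℤ z)
  calc A.valuation (Polynomial.aeval z (minpoly ℤ z).divX) * A.valuation z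
      ≤ 1 * A.valuation z := mul_le_mul_left (val_integral A h5) _
    _ = A.valuation z := one_mul _

private theorem unrb_ind {p : ℕ} (hp : p.Prime) (A : ValuationSubring ℂ) {n : ℕ} (hn : n ≠ 0) (hpn : p.Coprime n) {ζ : ℂ}
    (hζ : ζ ^ n = 1) (k : ℕ) : ∀ z ∈ Algebra.adjoin ℤ {ζ},
      A.valuation (p : ℂ) ^ k ≤ A.valuation z → ∃ j : ℕ, A.valuation z = A.valuation (p : ℂ) ^ j := by
  have hp0 : A.valuation (p : ℂ) ≠ 0 := by
    rw [Ne, map_eq_zero]
    exact_mod_cast hp.ne_zero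
  obtain ⟨q, hq, hfrob⟩ := unr_frob hp hn hpn hζ
  induction k with
  | zero =>
    intro z hz h
    refine ⟨0, ?_⟩
    rw [pow_zero] at h ⊢
    exact le_antisymm (val_integral A (unrb_int hn hζ hz)) h
  | succ k ih =>
    intro z hz h
    rcases eq_or_ne (A.valuation z) 1 with h1 | h1
    · exact ⟨0, by rw [h1, pow_zero]⟩
    · have h2 : A.valuation z < 1 := lt_of_le_of_ne (val_integral A (unrb_int hn hζ hz)) h1
      obtain ⟨t, ht, hzt⟩ := hfrob z hz
      have h3 : z ^ q - z = z * (z ^ (q - 1) - 1) := by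
        obtain ⟨r, rfl⟩ : ∃ r, q = r + 1 := ⟨q - 1, by omega⟩
        rw [Nat.add_sub_cancel, pow_succ]
        ring
      have h4 : A.valuation (z ^ (q - 1)) < 1 := by
        rw [map_pow]
        exact pow_lt_one₀ zero_le h2 (by omega)
      have h5 : A.valuation (z ^ (q - 1) - 1) = 1 := by
        rw [Valuation.map_sub_swap]
        have h6 := Valuation.map_sub_eq_of_lt_left A.valuation (x := 1) (y := z ^ (q - 1))
          (by rw [map_one]; exact h4)
        rw [h6, map_one]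
      have h6 : A.valuation z = A.valuation (p : ℂ) * A.valuation t := by
        rw [← map_mul, ← hzt, h3, map_mul, h5, mul_one]
      have h7 : A.valuation (p : ℂ) ^ k ≤ A.valuation t := by
        rw [h6, pow_succ, mul_comm] at h
        exact (mul_le_mul_iff_right₀ (zero_lt_iff.2 hp0)).1 h
      obtain ⟨j, hj⟩ := ih t ht h7
      exact ⟨j + 1, by rw [h6, hj, pow_succ, mul_comm]⟩

private theorem unrb_den {ζ : ℂ} {z : ℂ} (hz : z ∈ Algebra.adjoin ℚ {ζ}) :
    ∃ D : ℤ, D ≠ 0 ∧ (D : ℂ) * z ∈ Algebra.adjoin ℤ {ζ} := by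
  have hI : ∀ D : ℤ, (D : ℂ) ∈ Algebra.adjoin ℤ {ζ} := fun D => intCast_mem _ D
  induction hz using Algebra.adjoin_induction with
  | mem x hx =>
    refine ⟨1, one_ne_zero, ?_⟩
    rw [Int.cast_one, one_mul, Set.mem_singleton_iff.1 hx]
    exact Algebra.subset_adjoin rfl
  | algebraMap r =>
    refine ⟨r.den, by exact_mod_cast r.den_ne_zero, ?_⟩
    have h1 : ((r.den : ℤ) : ℂ) * (algebraMap ℚ ℂ) r = (r.num : ℂ) := by
      have h2 : (r.den : ℚ) * r = r.num := Rat.den_mul_eq_num r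
      have h3 : (algebraMap ℚ ℂ) r = (r : ℂ) := rfl
      rw [h3]
      exact_mod_cast congrArg (Rat.cast : ℚ → ℂ) h2
    rw [h1]
    exact hI _
  | add x y _ _ hx hy =>
    obtain ⟨D, hD, h1⟩ := hx
    obtain ⟨D', hD', h2⟩ := hy
    refine ⟨D * D', mul_ne_zero hD hD', ?_⟩
    have h3 : ((D * D' : ℤ) : ℂ) * (x + y) = D' * (D * x) + D * (D' * y) := by
      push_cast
      ring
    rw [h3]
    exact add_mem (mul_mem (hI _) h1) (mul_mem (hI _) h2)
  | mul x y _ _ hx hy =>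
    obtain ⟨D, hD, h1⟩ := hx
    obtain ⟨D', hD', h2⟩ := hy
    refine ⟨D * D', mul_ne_zero hD hD', ?_⟩
    have h3 : ((D * D' : ℤ) : ℂ) * (x * y) = (D * x) * (D' * y) := by
      push_cast
      ring
    rw [h3]
    exact mul_mem h1 h2

theorem val_unr {p : ℕ} (hp : p.Prime) (A : ValuationSubring ℂ) (hA : A.valuation (p : ℂ) < 1)
    {n : ℕ} (hn : n ≠ 0) (hpn : p.Coprime n) {ζ : ℂ} (hζ : ζ ^ n = 1) {z : ℂ} (hz : z ∈ Qz ζ)
    (h0 : z ≠ 0) : ∃ j : ℤ, A.valuation z = A.valuation (p : ℂ) ^ j := by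
  have hp0 : A.valuation (p : ℂ) ≠ 0 := by
    rw [Ne, map_eq_zero]
    exact_mod_cast hp.ne_zero
  have hint : IsAlgebraic ℚ ζ := by
    have h1 : IsIntegral ℤ ζ := unrb_int hn hζ (Algebra.subset_adjoin rfl)
    have h2 : IsIntegral ℚ ζ := h1.tower_top
    exact h2.isAlgebraic
  have h1 : z ∈ Algebra.adjoin ℚ {ζ} := by
    rw [← IntermediateField.adjoin_simple_toSubalgebra_of_isAlgebraic hint]
    exact hz
  obtain ⟨D, hD, h2⟩ := unrb_den h1
  have hDC : (D : ℂ) ≠ 0 := by exact_mod_cast hD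
  obtain ⟨k, hk⟩ := unrb_low hp A hA (unrb_int hn hζ h2) (mul_ne_zero hDC h0)
  obtain ⟨j, hj⟩ := unrb_ind hp A hn hpn hζ k _ h2 hk
  rw [map_mul, val_int hp A hA hD] at hj
  refine ⟨(j : ℤ) - (padicValInt p D : ℤ), ?_⟩
  rw [zpow_sub₀ hp0, zpow_natCast, zpow_natCast, ← hj]
  exact (mul_div_cancel_left₀ _ (pow_ne_zero _ hp0)).symm

end HYF
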