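import Mathlib
import Pool.Agent.HYF.Base
import Pool.Agent.HYF.UnrB

/-! HYF-DegN (the norm).

`z = Algebra.norm (Qz ζ) a ∈ Qz ζ`, `z ≠ 0`; `Algebra.norm_eq_prod_embeddings (Qz ζ) ℂ a`:
`(z : ℂ) = ∏ σ, σ a`, and the number of the `σ` is `finrank` (`AlgHom.card`; characteristic 0, `ℂ` algebraically
closed). By `val_unr` `v(z) = v(p)^j`, `j : ℤ`. The product of the hypotheses `h σ` is
`v(z)^N * v(p)^(V * finrank) = 1`, so `v(p)^(j N + V finrank) = 1` and, as `v(p) < 1`, `v(p) ≠ 0`,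
`j N + V finrank = 0`. -/

namespace HYF

private theorem DegN_zpow {G : Type*} [LinearOrderedCommGroupWithZero G] {x : G} (hx : x < 1)
    {k : ℤ} (h : x ^ k = 1) : k = 0 := by
  rcases k with n | n
  · have h1 : x ^ n = 1 := by simpa using h
    by_contra hn
    have hn' : n ≠ 0 := by
      rintro rfl
      exact hn rfl
    exact absurd h1 (ne_of_lt (pow_lt_one₀ zero_le' hx hn'))
  · rw [zpow_negSucc, inv_eq_one] at h
    exact absurd h (ne_of_lt (pow_lt_one₀ zero_le' hx (Nat.succ_ne_zero n)))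

theorem dvd_finrank {p : ℕ} (hp : p.Prime) (A : ValuationSubring ℂ)
    (hA : A.valuation (p : ℂ) < 1) {n : ℕ} (hn : n ≠ 0) (hpn : p.Coprime n) {ζ : ℂ}
    (hζ : ζ ^ n = 1) (L : IntermediateField (Qz ζ) ℂ) [FiniteDimensional (Qz ζ) L] {a : L}
    (ha : a ≠ 0) {N V : ℕ}
    (h : ∀ σ : L →ₐ[Qz ζ] ℂ, A.valuation (σ a) ^ N * A.valuation (p : ℂ) ^ V = 1) :
    N ∣ V * Module.finrank (Qz ζ) L := by
  classical
  have hz0 : Algebra.norm (Qz ζ) a ≠ 0 := Algebra.norm_ne_zero_iff.2 ha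
  have h1 : algebraMap (Qz ζ) ℂ (Algebra.norm (Qz ζ) a) = ∏ σ : L →ₐ[Qz ζ] ℂ, σ a :=
    Algebra.norm_eq_prod_embeddings (Qz ζ) ℂ a
  have hzc : ((Algebra.norm (Qz ζ) a : Qz ζ) : ℂ) ≠ 0 := by
    intro hh
    exact hz0 (Subtype.ext hh)
  obtain ⟨j, hj⟩ := val_unr hp A hA hn hpn hζ (Algebra.norm (Qz ζ) a).2 hzc
  have h2 : ((Algebra.norm (Qz ζ) a : Qz ζ) : ℂ) = ∏ σ : L →ₐ[Qz ζ] ℂ, σ a := h1
  have hcard : Fintype.card (L →ₐ[Qz ζ] ℂ) = Module.finrank (Qz ζ) L := AlgHom.card (Qz ζ) L ℂ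
  have h3 : ∏ σ : L →ₐ[Qz ζ] ℂ, (A.valuation (σ a) ^ N * A.valuation (p : ℂ) ^ V) = 1 :=
    Finset.prod_eq_one fun σ _ => h σ
  rw [Finset.prod_mul_distrib, Finset.prod_pow, ← map_prod, ← h2, hj, Finset.prod_const,
    Finset.card_univ, hcard, ← pow_mul] at h3
  have hp0 : A.valuation (p : ℂ) ≠ 0 := by
    rw [Valuation.ne_zero_iff]
    exact_mod_cast hp.ne_zero
  have h4 : A.valuation (p : ℂ) ^ (j * N + (V * Module.finrank (Qz ζ) L : ℕ)) = 1 := by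
    rw [zpow_add₀ hp0, zpow_mul, zpow_natCast, zpow_natCast]
    exact h3
  have h5 := DegN_zpow hA h4
  have h6 : (N : ℤ) ∣ ((V * Module.finrank (Qz ζ) L : ℕ) : ℤ) :=
    ⟨-j, by linear_combination h5⟩
  exact_mod_cast h6

end HYF
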