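import Mathlib
import Pool.Agent.HYF.Base

/-! Degrees of cyclotomic towers. -/

namespace HYF

open IntermediateField

private theorem degT_fr {b : ℂ} {n : ℕ} (hn : 0 < n) (hb : IsPrimitiveRoot b n) :
    Module.finrank ℚ (Qz b) = n.totient := by
  have h1 : IsIntegral ℚ b := (hb.isIntegral hn).tower_top
  rw [IntermediateField.adjoin.finrank h1, ← Polynomial.cyclotomic_eq_minpoly_rat hb hn,
    Polynomial.natDegree_cyclotomic]

private theorem degT_cop {p l t : ℕ} (hp : p.Prime) (hl : l.Prime) (hlp : ¬ l ∣ p * (p - 1)) :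
    l.Coprime (p ^ t).totient := by
  rcases t with _ | t
  · rw [pow_zero, Nat.totient_one]
    exact Nat.coprime_one_right l
  · rw [Nat.totient_prime_pow_succ hp]
    refine Nat.Coprime.mul_right (Nat.Coprime.pow_right t ?_) ?_
    · exact (Nat.Prime.coprime_iff_not_dvd hl).2 fun h => hlp (h.mul_right _)
    · exact (Nat.Prime.coprime_iff_not_dvd hl).2 fun h => hlp (h.mul_left _)

theorem tower {p : ℕ} (hp : p.Prime) {l : ℕ} (k : ℕ) (hl : l.Prime) (hlp : ¬ l ∣ p * (p - 1))
    {b : ℂ} {m : ℕ} (hm : m ≠ 0) (hb : b ^ m = 1) :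
    ∃ (n : ℕ) (ζ : ℂ), n ≠ 0 ∧ p.Coprime n ∧ ζ ^ n = 1 ∧ ∀ a : ℂ, IsIntegral ℚ a →
      FiniteDimensional (Qz ζ) (IntermediateField.adjoin (Qz ζ) {a, b}) ∧
      (l ^ k ∣ Module.finrank (Qz ζ) (IntermediateField.adjoin (Qz ζ) {a, b}) →
        l ^ k ∣ (minpoly (Qz b) a).natDegree) := by
  have hfin : IsOfFinOrder b := isOfFinOrder_iff_pow_eq_one.2 ⟨m, Nat.pos_of_ne_zero hm, hb⟩
  have hn0 : 0 < orderOf b := hfin.orderOf_pos
  obtain ⟨t, n, hpn, hbn⟩ := Nat.exists_eq_pow_mul_and_not_dvd hn0.ne' p hp.ne_one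
  have hn : 0 < n := by
    rcases Nat.eq_zero_or_pos n with h | h
    · rw [h, mul_zero] at hbn
      omega
    · exact h
  have hprim : IsPrimitiveRoot b (p ^ t * n) := by
    rw [← hbn]
    exact IsPrimitiveRoot.orderOf b
  have hpos : 0 < p ^ t * n := by
    rw [← hbn]
    exact hn0
  have hζ : IsPrimitiveRoot (b ^ p ^ t) n := hprim.pow hpos rfl
  have hcop : p.Coprime n := (Nat.Prime.coprime_iff_not_dvd hp).2 hpn
  refine ⟨n, b ^ p ^ t, hn.ne', hcop, hζ.pow_eq_one, fun a ha => ?_⟩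
  have hbi : IsIntegral ℚ b := (hprim.isIntegral hpos).tower_top
  have hζi : IsIntegral ℚ (b ^ p ^ t) := (hζ.isIntegral hn).tower_top
  have hfd : FiniteDimensional (Qz (b ^ p ^ t))
      (IntermediateField.adjoin (Qz (b ^ p ^ t)) {a, b}) := by
    refine IntermediateField.finiteDimensional_adjoin fun x hx => ?_
    rcases hx with rfl | hx
    · exact ha.tower_top
    · rw [Set.mem_singleton_iff.1 hx]
      exact hbi.tower_top
  refine ⟨hfd, fun hdvd => ?_⟩
  have hfr1 : Module.finrank ℚ (Qz (b ^ p ^ t)) *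
      Module.finrank (Qz (b ^ p ^ t)) (IntermediateField.adjoin (Qz (b ^ p ^ t)) {a, b}) =
      Module.finrank ℚ (IntermediateField.adjoin (Qz (b ^ p ^ t)) {a, b}) :=
    Module.finrank_mul_finrank _ _ _
  have hfr2 : Module.finrank ℚ (Qz b) *
      Module.finrank (Qz b) (IntermediateField.adjoin (Qz b) {a}) =
      Module.finrank ℚ (IntermediateField.adjoin (Qz b) {a}) :=
    Module.finrank_mul_finrank _ _ _
  have hmemb : b ∈ IntermediateField.adjoin ℚ (({b} : Set ℂ) ∪ {a}) :=
    IntermediateField.subset_adjoin ℚ _ (Set.mem_union_left _ (Set.mem_singleton b))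
  have hmema : a ∈ IntermediateField.adjoin ℚ (({b} : Set ℂ) ∪ {a}) :=
    IntermediateField.subset_adjoin ℚ _ (Set.mem_union_right _ (Set.mem_singleton a))
  have hmem : b ^ p ^ t ∈ IntermediateField.adjoin ℚ (({b} : Set ℂ) ∪ {a}) :=
    pow_mem hmemb _
  have heq : (IntermediateField.adjoin (Qz (b ^ p ^ t)) {a, b}).restrictScalars ℚ =
      (IntermediateField.adjoin (Qz b) {a}).restrictScalars ℚ := by
    refine (IntermediateField.adjoin_adjoin_left ℚ {b ^ p ^ t} {a, b}).trans (Eq.trans ?_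
      (IntermediateField.adjoin_adjoin_left ℚ {b} {a}).symm)
    apply le_antisymm
    · rw [IntermediateField.adjoin_le_iff]
      rintro x (hx | hx | hx)
      · rw [Set.mem_singleton_iff.1 hx]
        exact hmem
      · rw [hx]
        exact hmema
      · rw [Set.mem_singleton_iff.1 hx]
        exact hmemb
    · refine IntermediateField.adjoin.mono ℚ _ _ ?_
      rintro x (hx | hx)
      · rw [Set.mem_singleton_iff.1 hx]
        exact Or.inr (Or.inr rfl)
      · rw [Set.mem_singleton_iff.1 hx]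
        exact Or.inr (Or.inl rfl)
  have hfr3 : Module.finrank ℚ (IntermediateField.adjoin (Qz (b ^ p ^ t)) {a, b}) =
      Module.finrank ℚ (IntermediateField.adjoin (Qz b) {a}) := by
    have h1 : Module.finrank ℚ ((IntermediateField.adjoin (Qz (b ^ p ^ t)) {a, b}).restrictScalars ℚ)
      = Module.finrank ℚ ((IntermediateField.adjoin (Qz b) {a}).restrictScalars ℚ) := by
      rw [heq]
    exact h1
  rw [IntermediateField.adjoin.finrank (K := Qz b) ha.tower_top, degT_fr hpos hprim] at hfr2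
  rw [degT_fr hn hζ, hfr3, ← hfr2, Nat.totient_mul (Nat.Coprime.pow_left t hcop),
    mul_comm (p ^ t).totient, mul_assoc] at hfr1
  have h5 := Nat.eq_of_mul_eq_mul_left (Nat.totient_pos.2 hn) hfr1
  rw [h5] at hdvd
  exact Nat.Coprime.dvd_of_dvd_mul_left (Nat.Coprime.pow_left k (degT_cop hp hl hlp)) hdvd

end HYF
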