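import Mathlib
import Pool.Agent.HYI.Base
import Pool.Agent.HYI.Api
import Pool.Agent.HYF.Conj
import Pool.Agent.HYF.DegN
import Pool.Agent.HYF.DegT
import Pool.Agent.HYF.DegI

/-! Irreducibility: the degree of `a` if `f(a) = b + ε/b`, `b` a root of unity. -/

namespace HYF

open Polynomial HYI

variable {r : ℕ} {P : Fin (r + 1) → ℤ[X]} {e : Fin (r + 1) → ℕ} {c κ ε : ℤ}

private lemma irr_fne (hm : ∀ i, (P i).Monic) (hc : c ≠ 0) :
    (fp P e c κ).natDegree = ∑ i, e i * (P i).natDegree := by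
  unfold fp
  rw [natDegree_add_C, natDegree_C_mul hc, natDegree_prod_of_monic _ _ fun i _ => (hm i).pow _]
  exact Finset.sum_congr rfl fun i _ => (hm i).natDegree_pow _

private lemma irr_int_b {b : ℂ} {m : ℕ} (hm0 : m ≠ 0) (hb : b ^ m = 1) : IsIntegral ℚ b := by
  refine ⟨X ^ m - 1, monic_X_pow_sub_C 1 hm0, ?_⟩
  rw [← aeval_def, map_sub, map_pow, aeval_X, hb, map_one, sub_self]

private lemma irr_int_a (hm : ∀ i, (P i).Monic) (hN : 0 < ∑ i, e i * (P i).natDegree) (hc : c ≠ 0)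
    {a : ℂ} (hs : IsIntegral ℚ (aeval a (fp P e c κ))) : IsIntegral ℚ a := by
  have hs' : IsAlgebraic ℚ (aeval a ((fp P e c κ).map (Int.castRingHom ℚ))) := by
    have h : (Int.castRingHom ℚ) = algebraMap ℤ ℚ := rfl
    rw [h, aeval_map_algebraMap]
    exact hs.isAlgebraic
  rw [← isAlgebraic_iff_isIntegral]
  by_contra h
  have h1 : Transcendental ℚ a := h
  have h2 : Transcendental ℚ (aeval a ((fp P e c κ).map (Int.castRingHom ℚ))) := by
    have h3 : ((fp P e c κ).map (Int.castRingHom ℚ)).natDegree ≠ 0 := by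
      rw [natDegree_map_eq_of_injective (RingHom.injective_int (Int.castRingHom ℚ)),
        irr_fne hm hc]
      omega
    refine h1.aeval _ h3 (mem_nonZeroDivisors_of_ne_zero (leadingCoeff_ne_zero.2 ?_))
    intro h4
    rw [h4, natDegree_zero] at h3
    exact h3 rfl
  exact h2 hs'

private lemma irr_one (hm : ∀ i, (P i).Monic) (hN : 0 < ∑ i, e i * (P i).natDegree) (hc : c ≠ 0)
    (hκ : (ε = 1 ∧ |κ| ≤ 2) ∨ (ε = -1 ∧ κ = 0)) {a b : ℂ} (ha : IsIntegral ℚ a)
    (hab : b ^ 2 - aeval a (fp P e c κ) * b + ε = 0) {m : ℕ} (hm0 : m ≠ 0) (hb : b ^ m = 1)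
    {l k p : ℕ} (hl : l.Prime) (hp : p.Prime) (hlp : ¬ l ∣ p * (p - 1) * padicValInt p c)
    (hbad : ¬ Bad κ ε p b) (hk : l ^ k ∣ ∑ i, e i * (P i).natDegree) :
    l ^ k ∣ (minpoly (Qz b) a).natDegree := by
  have hpc : padicValInt p c ≠ 0 := by
    intro h
    rw [h, mul_zero] at hlp
    exact hlp (dvd_zero _)
  have hlV : ¬ l ∣ padicValInt p c := fun h => hlp (Dvd.dvd.mul_left h _)
  have hlp1 : ¬ l ∣ p * (p - 1) := fun h => hlp (Dvd.dvd.mul_right h _)
  obtain ⟨A, hA⟩ := exists_val hp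
  obtain ⟨n, ζ, hn, hpn, hζ, htw⟩ := tower hp k hl hlp1 hm0 hb
  obtain ⟨hfd, hdiv⟩ := htw a ha
  apply hdiv
  set L := IntermediateField.adjoin (Qz ζ) {a, b} with hL
  have haL : a ∈ L := IntermediateField.subset_adjoin _ _ (Or.inl rfl)
  have hbL : b ∈ L := IntermediateField.subset_adjoin _ _ (Or.inr rfl)
  have e1 : algebraMap L ℂ (⟨b, hbL⟩ : L) = b := rfl
  have e2 : algebraMap L ℂ (⟨a, haL⟩ : L) = a := rfl
  have h1 : (⟨b, hbL⟩ : L) ^ 2 - aeval (⟨a, haL⟩ : L) (fp P e c κ) * ⟨b, hbL⟩ + ε = 0 := by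
    apply (algebraMap L ℂ).injective
    rw [map_add, map_sub, map_mul, map_pow, map_intCast, map_zero, ← aeval_algebraMap_apply, e1, e2]
    exact hab
  have h2 : (⟨b, hbL⟩ : L) ^ m = 1 := by
    apply (algebraMap L ℂ).injective
    rw [map_pow, map_one, e1]
    exact hb
  have h3 : ∀ σ : L →+* ℂ, A.valuation (σ ⟨a, haL⟩) ^ (∑ i, e i * (P i).natDegree) *
      A.valuation (p : ℂ) ^ padicValInt p c = 1 := fun σ =>
    conj_val hm hc hκ hp hpc A hA σ (algebraMap L ℂ) h1 hm0 h2 hbad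
  have h4 : (⟨a, haL⟩ : L) ≠ 0 := by
    intro h0
    have h5 := h3 (algebraMap L ℂ)
    rw [h0, map_zero, map_zero, zero_pow hN.ne', zero_mul] at h5
    exact zero_ne_one h5
  have h5 := dvd_finrank hp A hA hn hpn hζ L h4 (fun σ => h3 σ.toRingHom)
  have h6 : Nat.Coprime (l ^ k) (padicValInt p c) :=
    Nat.Coprime.pow_left _ ((Nat.Prime.coprime_iff_not_dvd hl).2 hlV)
  exact h6.dvd_of_dvd_mul_left (hk.trans h5)

theorem irr (hm : ∀ i, (P i).Monic) (hN : 0 < ∑ i, e i * (P i).natDegree) (hc : c ≠ 0)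
    (hκ : (ε = 1 ∧ |κ| ≤ 2) ∨ (ε = -1 ∧ κ = 0))
    (hT : TwoPrimes (∑ i, e i * (P i).natDegree) c) {a b : ℂ}
    (hab : b ^ 2 - aeval a (fp P e c κ) * b + ε = 0) {m : ℕ} (hm0 : m ≠ 0) (hb : b ^ m = 1)
    (hne : aeval a (fp P e c κ) ≠ (κ : ℂ)) :
    (∑ i, e i * (P i).natDegree) * (minpoly ℚ (aeval a (fp P e c κ))).natDegree ≤
      (minpoly ℚ a).natDegree := by
  have hb0 : b ≠ 0 := by
    rintro rfl
    rw [zero_pow hm0] at hb
    exact zero_ne_one hb
  have hbi := irr_int_b hm0 hb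
  have hs : aeval a (fp P e c κ) = b + ε * b⁻¹ := by
    have h1 : (aeval a (fp P e c κ) - (b + ε * b⁻¹)) * b = 0 := by
      have h2 : b⁻¹ * b = 1 := inv_mul_cancel₀ hb0
      linear_combination (-1 : ℂ) * hab - (ε : ℂ) * h2
    exact sub_eq_zero.1 ((mul_eq_zero.1 h1).resolve_right hb0)
  have hsb : aeval a (fp P e c κ) ∈ Qz b := by
    rw [hs]
    have h1 : b ∈ Qz b := IntermediateField.mem_adjoin_simple_self ℚ b
    exact add_mem h1 (mul_mem (intCast_mem _ _) (inv_mem h1))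
  have hsi : IsIntegral ℚ (aeval a (fp P e c κ)) := by
    have h1 : IsIntegral ℚ (⟨aeval a (fp P e c κ), hsb⟩ : Qz b) := by
      have : FiniteDimensional ℚ (Qz b) := IntermediateField.adjoin.finiteDimensional hbi
      exact Algebra.IsIntegral.isIntegral _
    exact h1.map (Qz b).val
  have hai := irr_int_a hm hN hc hsi
  have hsa : aeval a (fp P e c κ) ∈ Qz a := by
    have h1 : a ∈ Qz a := IntermediateField.mem_adjoin_simple_self ℚ a
    have h2 : aeval a (fp P e c κ) = algebraMap (Qz a) ℂ (aeval (⟨a, h1⟩ : Qz a) (fp P e c κ)) := by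
      rw [← aeval_algebraMap_apply]
      rfl
    rw [h2]
    exact (aeval (⟨a, h1⟩ : Qz a) (fp P e c κ)).2
  have hbne : b ^ 2 - κ * b + ε ≠ 0 := by
    intro h
    apply hne
    have h1 : (aeval a (fp P e c κ) - κ) * b = 0 := by linear_combination h - hab
    exact sub_eq_zero.1 ((mul_eq_zero.1 h1).resolve_right hb0)
  have hD : (∑ i, e i * (P i).natDegree) ∣ (minpoly (Qz b) a).natDegree := by
    rw [Nat.dvd_iff_prime_pow_dvd_dvd]
    intro l k hl hk
    rcases Nat.eq_zero_or_pos k with rfl | hk0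
    · rw [pow_zero]
      exact one_dvd _
    obtain ⟨p, q, hp, hq, hpq, h1, h2⟩ := hT l hl ((dvd_pow_self l hk0.ne').trans hk)
    rcases not_bad_both hκ hp hq hpq hbne with h3 | h3
    · exact irr_one hm hN hc hκ hai hab hm0 hb hl hp h1 h3 hk
    · exact irr_one hm hN hc hκ hai hab hm0 hb hl hq h2 h3 hk
  have hpos : 0 < (minpoly (Qz b) a).natDegree :=
    minpoly.natDegree_pos (hai.tower_top)
  exact (Nat.mul_le_mul_right _ (Nat.le_of_dvd hpos hD)).trans (le_deg hai hbi hsa hsb)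

end HYF
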