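import Mathlib
import Pool.Agent.ISI.Base

/-! HYF-PsiA: symbols `{G(v), v}` with all roots of `G` roots of unity.

`{v^d - 1, v} = 0` for `d ≥ 1`, hence `{Φ_d(v), v} = 0` for the cyclotomic polynomials `Φ_d`, and `G` is a
product of cyclotomic polynomials. -/

namespace HYF

open Polynomial Pool.Agent.Helper11 Pool.Agent.ISI

variable {K : Type} [Field K] [CharZero K]

private lemma PsiA_one_left (u : Kˣ) : sy 1 u = 0 := by
  rw [sy_anti, sy_one_right, neg_zero]

private lemma PsiA_neg_one (w : Kˣ) : sy (-1) w = 0 := by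
  have h1 : (2 : ℚ) • sy (-1) w = 0 := by
    have h2 := sy_zpow_left w (-1 : Kˣ) 2
    have h3 : (-1 : Kˣ) ^ (2 : ℤ) = 1 := by
      rw [zpow_ofNat, neg_one_sq]
    rw [h3, PsiA_one_left] at h2
    rw [h2]
    norm_num
  rcases smul_eq_zero.1 h1 with h | h
  · exact absurd h two_ne_zero
  · exact h

private lemma PsiA_pow {v a : Kˣ} {d : ℕ} (hd : d ≠ 0) (ha : (a : K) = (v : K) ^ d - 1) :
    sy a v = 0 := by
  have h1 : (d : ℚ) • sy a v = sy a (v ^ d) := by
    have h2 := sy_zpow_right a v (d : ℤ)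
    rw [zpow_natCast] at h2
    rw [h2, Int.cast_natCast]
  have h3 : a = (-1) * (-a) := by rw [neg_mul_neg, one_mul]
  have h4 : sy (-a) (v ^ d) = 0 := by
    apply sy_steinberg
    rw [Units.val_neg, Units.val_pow_eq_pow_val, ha]
    ring
  have h5 : sy a (v ^ d) = 0 := by
    rw [h3, sy_mul_left, PsiA_neg_one, h4, add_zero]
  rw [h5] at h1
  rcases smul_eq_zero.1 h1 with h | h
  · exact absurd (Nat.cast_eq_zero.1 h) hd
  · exact h

private lemma PsiA_ne {v : Kˣ} (hv : ∀ m : ℕ, m ≠ 0 → v ^ m ≠ 1) {d : ℕ} (hd : d ≠ 0) :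
    (v : K) ^ d - 1 ≠ 0 := by
  intro h
  apply hv d hd
  apply Units.ext
  rw [Units.val_pow_eq_pow_val, Units.val_one]
  exact sub_eq_zero.1 h

private lemma PsiA_prod (v : Kˣ) {d : ℕ} (hd : d ≠ 0) :
    ∏ k ∈ d.divisors, aeval (v : K) (cyclotomic k ℚ) = (v : K) ^ d - 1 := by
  have h1 := prod_cyclotomic_eq_X_pow_sub_one (Nat.pos_of_ne_zero hd) ℚ
  have h2 := congrArg (aeval (v : K)) h1
  rw [map_prod] at h2
  rw [h2]
  simp

private lemma PsiA_cyc_ne {v : Kˣ} (hv : ∀ m : ℕ, m ≠ 0 → v ^ m ≠ 1) {d : ℕ} (hd : d ≠ 0) :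
    aeval (v : K) (cyclotomic d ℚ) ≠ 0 := by
  intro h
  apply PsiA_ne hv hd
  rw [← PsiA_prod v hd]
  exact Finset.prod_eq_zero (Nat.mem_divisors_self d hd) h

private lemma PsiA_cyc {v : Kˣ} (hv : ∀ m : ℕ, m ≠ 0 → v ^ m ≠ 1) (d : ℕ) : d ≠ 0 →
    ∀ c : Kˣ, (c : K) = aeval (v : K) (cyclotomic d ℚ) → sy c v = 0 := by
  induction d using Nat.strong_induction_on with
  | _ d ih =>
    intro hd c hc
    classical
    let f : ℕ → Kˣ := fun k => if h : k ≠ 0 then Units.mk0 _ (PsiA_cyc_ne hv h) else 1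
    have hf : ∀ k, k ≠ 0 → (f k : K) = aeval (v : K) (cyclotomic k ℚ) := by
      intro k hk
      simp only [f]
      rw [dif_pos hk, Units.val_mk0]
    have h1 : ((∏ k ∈ d.divisors, f k : Kˣ) : K) = (v : K) ^ d - 1 := by
      rw [Units.coe_prod, ← PsiA_prod v hd]
      apply Finset.prod_congr rfl
      intro k hk
      exact hf k (Nat.pos_of_mem_divisors hk).ne'
    have h2 := PsiA_pow hd h1
    rw [sy_prod_left, Finset.sum_eq_single d] at h2
    · have h3 : c = f d := by
        apply Units.ext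
        rw [hc, hf d hd]
      rw [h3]
      exact h2
    · intro k hk hkd
      have hk0 : k ≠ 0 := (Nat.pos_of_mem_divisors hk).ne'
      exact ih k (lt_of_le_of_ne (Nat.divisor_le hk) hkd) hk0 (f k) (hf k hk0)
    · intro h3
      exact absurd (Nat.mem_divisors_self d hd) h3

private lemma PsiA_main {v : Kˣ} (hv : ∀ m : ℕ, m ≠ 0 → v ^ m ≠ 1) (n : ℕ) :
    ∀ G : ℚ[X], G.natDegree = n → G.Monic →
      (∀ t : ℂ, aeval t G = 0 → ∃ m : ℕ, m ≠ 0 ∧ t ^ m = 1) →
        ∀ g : Kˣ, (g : K) = aeval (v : K) G → sy g v = 0 := by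
  induction n using Nat.strong_induction_on with
  | _ n ih =>
    intro G hn hG hr g hg
    by_cases h0 : G.natDegree = 0
    · have h1 : G = 1 := hG.natDegree_eq_zero.1 h0
      have h2 : g = 1 := by
        apply Units.ext
        rw [hg, h1, map_one, Units.val_one]
      rw [h2, PsiA_one_left]
    · have hdeg : G.degree ≠ 0 := by
        intro h
        exact h0 (natDegree_eq_of_degree_eq_some h)
      obtain ⟨t, ht⟩ := IsAlgClosed.exists_aeval_eq_zero ℂ G hdeg
      obtain ⟨m, hm, htm⟩ := hr t ht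
      have hfin : IsOfFinOrder t := isOfFinOrder_iff_pow_eq_one.2 ⟨m, Nat.pos_of_ne_zero hm, htm⟩
      have hd : 0 < orderOf t := hfin.orderOf_pos
      have hmin := cyclotomic_eq_minpoly_rat (IsPrimitiveRoot.orderOf t) hd
      have hdvd : cyclotomic (orderOf t) ℚ ∣ G := by
        rw [hmin]
        exact minpoly.dvd ℚ t ht
      obtain ⟨G', hG'⟩ := hdvd
      have hmon : G'.Monic := by
        rw [hG'] at hG
        exact Monic.of_mul_monic_left (cyclotomic.monic _ ℚ) hG
      have hdg : G.natDegree = (orderOf t).totient + G'.natDegree := by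
        rw [hG', (cyclotomic.monic _ ℚ).natDegree_mul hmon, natDegree_cyclotomic]
      have htot : 0 < (orderOf t).totient := Nat.totient_pos.2 hd
      have hval : (g : K) = aeval (v : K) (cyclotomic (orderOf t) ℚ) * aeval (v : K) G' := by
        rw [hg, hG', map_mul]
      have hne : aeval (v : K) G' ≠ 0 := by
        intro h
        rw [h, mul_zero] at hval
        exact g.ne_zero hval
      have hc := PsiA_cyc_ne hv hd.ne'
      have h1 : g = Units.mk0 _ hc * Units.mk0 _ hne := by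
        apply Units.ext
        rw [Units.val_mul, Units.val_mk0, Units.val_mk0, hval]
      rw [h1, sy_mul_left, PsiA_cyc hv _ hd.ne' _ (Units.val_mk0 hc),
        ih G'.natDegree (by omega) G' rfl hmon ?_ _ (Units.val_mk0 hne), add_zero]
      intro s hs
      apply hr s
      rw [hG', map_mul, hs, mul_zero]

theorem sy_roots {K : Type} [Field K] [CharZero K] {v : Kˣ} (hv : ∀ m : ℕ, m ≠ 0 → v ^ m ≠ 1)
    {G : ℚ[X]} (hG : G.Monic) (hr : ∀ t : ℂ, aeval t G = 0 → ∃ m : ℕ, m ≠ 0 ∧ t ^ m = 1)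
    {g : Kˣ} (hg : (g : K) = aeval (v : K) G) : sy g v = 0 :=
  PsiA_main hv G.natDegree G rfl hG hr g hg

end HYF
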