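import Mathlib
import Pool.Agent.ISI.Base
import Pool.Agent.HYF.Base
import Pool.Agent.HYF.PsiA

/-! The symbol `{Ψ(v + ε/v), v}`, `Ψ` the minimal polynomial of `b + ε/b`, `b` a root of unity.

Let `Ψ = minpoly ℚ (b + ε/b)` (monic, `b + ε/b` is an algebraic integer), `d = natDegree`, and
`G = ∑ i ∈ range (d+1), C (Ψ.coeff i) * (X^2 + C ε)^i * X^(d-i)`: monic of degree `2 d`, and
`G(t) = t^d Ψ(t + ε/t)` for `t ≠ 0` in any field of characteristic 0. So `g v^d = G(v)` and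
`sy g v = sy (g v^d) v - d sy v v = sy (g v^d) v` (`sy_self`). By `sy_roots` it remains to see that a complex root
`t` of `G` is a root of unity: `G(0) = ε^d ≠ 0`, so `t ≠ 0` and `Ψ(t + ε/t) = 0`. With `M = 2 m` and `D` from
`exists_dickson ε M`: `D(b + ε/b) = b^M + ε^M/b^M = 2`, so `Ψ ∣ D - 2` (`minpoly.dvd`, `D` mapped to `ℚ[X]`), hence
`t^M + 1/t^M = 2`, `(t^M - 1)^2 = 0`. -/

namespace HYF

open Polynomial Pool.Agent.Helper11 Pool.Agent.ISI

private noncomputable def PsiB_G (Ψ : ℚ[X]) (ε : ℤ) : ℚ[X] :=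
  ∑ i ∈ Finset.range (Ψ.natDegree + 1),
    C (Ψ.coeff i) * (X ^ 2 + C (ε : ℚ)) ^ i * X ^ (Ψ.natDegree - i)

private theorem PsiB_eval {L : Type} [Field L] [Algebra ℚ L] (Ψ : ℚ[X]) (ε : ℤ) {t : L}
    (ht : t ≠ 0) :
    aeval t (PsiB_G Ψ ε) = t ^ Ψ.natDegree * aeval (t + ε / t) Ψ := by
  unfold PsiB_G
  rw [map_sum, aeval_eq_sum_range (t + ε / t), Finset.mul_sum]
  refine Finset.sum_congr rfl fun i hi => ?_
  have hi' : i ≤ Ψ.natDegree := by
    have := Finset.mem_range.1 hi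
    omega
  obtain ⟨k, hk⟩ := Nat.exists_eq_add_of_le hi'
  rw [hk, Nat.add_sub_cancel_left, map_mul, map_mul, aeval_C, map_pow, map_add, map_pow, aeval_X,
    aeval_C, map_pow, aeval_X, Algebra.smul_def, pow_add]
  have h1 : (algebraMap ℚ L) (ε : ℚ) = (ε : L) := map_intCast _ _
  rw [h1]
  have h2 : t ^ i * (t + ε / t) ^ i = (t ^ 2 + ε) ^ i := by
    rw [← mul_pow]
    congr 1
    field_simp
  rw [← h2]
  ring

private theorem PsiB_zero {Ψ : ℚ[X]} (hΨ : Ψ.Monic) (ε : ℤ) :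
    aeval (0 : ℂ) (PsiB_G Ψ ε) = (ε : ℂ) ^ Ψ.natDegree := by
  unfold PsiB_G
  rw [map_sum, Finset.sum_range_succ, Finset.sum_eq_zero, zero_add]
  · have h1 : (algebraMap ℚ ℂ) (ε : ℚ) = (ε : ℂ) := map_intCast _ _
    rw [Nat.sub_self, pow_zero, mul_one, hΨ.coeff_natDegree, C_1, one_mul, map_pow, map_add,
      map_pow, aeval_X, aeval_C, h1, zero_pow two_ne_zero, zero_add]
  · intro i hi
    have hi' := Finset.mem_range.1 hi
    rw [map_mul, map_pow, aeval_X, zero_pow (by omega), mul_zero]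

private theorem PsiB_monic {Ψ : ℚ[X]} (hΨ : Ψ.Monic) (ε : ℤ) : (PsiB_G Ψ ε).Monic := by
  have h0 : (X ^ 2 + C (ε : ℚ)).Monic := monic_X_pow_add_C _ two_ne_zero
  unfold PsiB_G
  rw [Finset.sum_range_succ, add_comm, Nat.sub_self, pow_zero, mul_one, hΨ.coeff_natDegree, C_1,
    one_mul]
  refine (h0.pow _).add_of_left ?_
  have hdeg : ((X ^ 2 + C (ε : ℚ)) ^ Ψ.natDegree).degree = ((Ψ.natDegree * 2 : ℕ) : WithBot ℕ) := by
    rw [degree_eq_natDegree (h0.pow _).ne_zero, h0.natDegree_pow, natDegree_X_pow_add_C]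
  rw [hdeg]
  refine lt_of_le_of_lt (degree_sum_le _ _) ((Finset.sup_lt_iff (WithBot.bot_lt_coe _)).2 ?_)
  intro i hi
  have hi' := Finset.mem_range.1 hi
  have h1 : (C (Ψ.coeff i) * (X ^ 2 + C (ε : ℚ)) ^ i * X ^ (Ψ.natDegree - i)).natDegree ≤
      i * 2 + (Ψ.natDegree - i) := by
    refine natDegree_mul_le.trans (add_le_add ?_ (natDegree_X_pow_le _))
    refine (natDegree_C_mul_le _ _).trans ?_
    rw [h0.natDegree_pow, natDegree_X_pow_add_C]
  refine lt_of_le_of_lt (degree_le_of_natDegree_le h1) ?_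
  exact_mod_cast (by omega : i * 2 + (Ψ.natDegree - i) < Ψ.natDegree * 2)

private theorem PsiB_int {b : ℂ} {m : ℕ} (hm : m ≠ 0) (hb : b ^ m = 1) (ε : ℤ) :
    IsIntegral ℚ (b + ε / b) := by
  have h1 : IsIntegral ℚ b := by
    refine IsIntegral.of_pow (Nat.pos_of_ne_zero hm) ?_
    rw [hb]
    exact isIntegral_one
  have h2 : IsIntegral ℚ b⁻¹ := by
    rw [← isAlgebraic_iff_isIntegral] at h1 ⊢
    exact h1.inv
  have h3 : IsIntegral ℚ (ε : ℂ) := by
    have h4 : ((ε : ℤ) : ℂ) = algebraMap ℚ ℂ (ε : ℚ) := (map_intCast _ _).symm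
    rw [h4]
    exact isIntegral_algebraMap
  rw [div_eq_mul_inv]
  exact h1.add (h3.mul h2)

private theorem PsiB_root {ε : ℤ} (hε : ε = 1 ∨ ε = -1) {b : ℂ} {m : ℕ} (hm : m ≠ 0)
    (hb : b ^ m = 1) {t : ℂ} (ht : t ≠ 0)
    (h : aeval (t + ε / t) (minpoly ℚ (b + ε / b)) = 0) : t ^ (2 * m) = 1 := by
  obtain ⟨D, hD⟩ := exists_dickson ε (2 * m)
  have hε2 : (ε : ℂ) ^ (2 * m) = 1 := by
    rcases hε with h | h
    · rw [h, Int.cast_one, one_pow]
    · rw [h, pow_mul]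
      norm_num
  have hb0 : b ≠ 0 := by
    intro h0
    rw [h0, zero_pow hm] at hb
    exact zero_ne_one hb
  have h1 : aeval (b + ε / b) (D.map (Int.castRingHom ℚ) - C 2) = 0 := by
    rw [map_sub, aeval_map, hD b hb0, aeval_C, div_pow, hε2, mul_comm 2 m, pow_mul, hb]
    norm_num
  obtain ⟨Q, hQ⟩ := minpoly.dvd ℚ _ h1
  have h2 : aeval (t + ε / t) (D.map (Int.castRingHom ℚ) - C 2) = 0 := by
    rw [hQ, map_mul, h, zero_mul]
  rw [map_sub, aeval_map, hD t ht, aeval_C, div_pow, hε2] at h2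
  have h3 : (algebraMap ℚ ℂ) 2 = 2 := by norm_num
  rw [h3] at h2
  have h4 : t ^ (2 * m) ≠ 0 := pow_ne_zero _ ht
  have h5 : (t ^ (2 * m) - 1) ^ 2 = 0 := by
    field_simp at h2
    linear_combination h2
  have h6 := pow_eq_zero_iff two_ne_zero |>.1 h5
  exact sub_eq_zero.1 h6

theorem sy_psi {K : Type} [Field K] [CharZero K] {v : Kˣ} (hv : ∀ m : ℕ, m ≠ 0 → v ^ m ≠ 1)
    {ε : ℤ} (hε : ε = 1 ∨ ε = -1) {b : ℂ} {m : ℕ} (hm : m ≠ 0) (hb : b ^ m = 1) {g : Kˣ}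
    (hg : (g : K) = aeval ((v : K) + ε / v) (minpoly ℚ (b + ε / b))) : sy g v = 0 := by
  have hΨ : (minpoly ℚ (b + ε / b)).Monic := minpoly.monic (PsiB_int hm hb ε)
  have hg' : ((v ^ (minpoly ℚ (b + ε / b)).natDegree * g : Kˣ) : K) =
      aeval (v : K) (PsiB_G (minpoly ℚ (b + ε / b)) ε) := by
    rw [PsiB_eval _ ε v.ne_zero, Units.val_mul, Units.val_pow_eq_pow_val, hg]
  have h1 := sy_roots hv (PsiB_monic hΨ ε) (fun t ht => ?_) hg'
  · have h2 : sy (v ^ (minpoly ℚ (b + ε / b)).natDegree) v = 0 := by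
      have h3 := sy_zpow_left v v ((minpoly ℚ (b + ε / b)).natDegree : ℤ)
      rw [zpow_natCast, sy_self, smul_zero] at h3
      exact h3
    rw [sy_mul_left, h2, zero_add] at h1
    exact h1
  · have ht0 : t ≠ 0 := by
      intro h0
      rw [h0, PsiB_zero hΨ] at ht
      have h4 : (ε : ℂ) ≠ 0 := by
        rcases hε with h | h
        · rw [h]
          norm_num
        · rw [h]
          norm_num
      exact pow_ne_zero _ h4 ht
    rw [PsiB_eval _ ε ht0] at ht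
    refine ⟨2 * m, by omega, PsiB_root hε hm hb ht0 ?_⟩
    exact (mul_eq_zero.1 ht).resolve_left (pow_ne_zero _ ht0)

end HYF
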