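import Mathlib
import Pool.Agent.HYI.Base
import Pool.Agent.HYI.Api
import Pool.Agent.HYF.Irr
import Pool.Agent.HYF.PsiB

/-! An irreducible polynomial `π(x)` can be replaced by an element of `xGroup` in `{π(x), v}`: if
`w` is a root of unity `b` at a zero `a` of `π`, then `π` is a constant multiple of some `P i` or of
`Ψ(f)`, `Ψ` the minimal polynomial of `f(a) = b + ε/b`, and the symbol `{Ψ(v + ε/v), v}` vanishes. -/

namespace HYF

open Polynomial HYI Pool.Agent.Helper11 Pool.Agent.ISI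

private theorem replA_cst_mem {r : ℕ} {P : Fin (r + 1) → ℤ[X]} {f : ℤ[X]} {ε : ℤ} {K : Type}
    [Field K] [CharZero K] {x : K} (q : ℚˣ) : cst K q ∈ xGroup P f ε x := by
  refine Subgroup.subset_closure (Or.inr ⟨C (q : ℚ), ?_, ?_⟩)
  · intro a b ha
    rw [aeval_C] at ha
    exact absurd ((map_eq_zero _).1 ha) q.ne_zero
  · rw [cst_val, aeval_C, eq_ratCast]

private theorem replA_alg {L : Type*} [Field L] [CharZero L] {b : L} {m : ℕ} (hm : m ≠ 0)
    (hb : b ^ m = 1) : IsIntegral ℚ b := by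
  refine ⟨X ^ m - C 1, monic_X_pow_sub_C 1 hm, ?_⟩
  rw [← aeval_def, map_sub, map_pow, aeval_X, aeval_C, map_one, hb, sub_self]

private theorem replA_alg' {L : Type*} [Field L] [CharZero L] {b : L} {m : ℕ} (hm : m ≠ 0)
    (hb : b ^ m = 1) (ε : ℤ) : IsIntegral ℚ (b + ε / b) := by
  have h1 := replA_alg hm hb
  have h2 : IsIntegral ℚ ((ε : L)) := by
    have h3 : IsIntegral ℚ (algebraMap ℚ L (ε : ℚ)) := isIntegral_algebraMap
    simpa using h3
  rw [div_eq_mul_inv]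
  exact h1.add (h2.mul h1.inv)

private theorem replA_s {L : Type*} [Field L] {b s ε : L} (hb0 : b ≠ 0)
    (h : b ^ 2 - s * b + ε = 0) : s = b + ε / b := by
  field_simp
  linear_combination -h

theorem repl_irr {r : ℕ} {P : Fin (r + 1) → ℤ[X]} {e : Fin (r + 1) → ℕ} {c κ ε : ℤ} {K : Type}
    [Field K] [CharZero K] {x : K} {v : Kˣ} (H : Cur P e c κ ε x v)
    (hT : TwoPrimes (∑ i, e i * (P i).natDegree) c) {π : ℚ[X]} (hπ : Irreducible π) :
    ∃ h' ∈ xGroup P (fp P e c κ) ε x, sy (pq x π) v = sy h' v := by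
  have hπ0 := hπ.ne_zero
  by_cases hA : Avoids (fp P e c κ) ε π
  · exact ⟨pq x π, Subgroup.subset_closure (Or.inr ⟨π, hA, pq_val H.hx hπ0⟩), rfl⟩
  unfold Avoids at hA
  push Not at hA
  obtain ⟨a, b, ha, hab, m, hm0, hb⟩ := hA
  have hlc : π.leadingCoeff ≠ 0 := leadingCoeff_ne_zero.2 hπ0
  have hmin : π = C π.leadingCoeff * minpoly ℚ a := minpoly.Irreducible.eq_minpoly hπ ha
  have haI : IsIntegral ℚ a := by
    have : IsAlgebraic ℚ a := ⟨π, hπ0, ha⟩
    exact this.isIntegral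
  by_cases hP : ∃ i, aeval a (P i) = 0
  · obtain ⟨i, hi⟩ := hP
    have h1 : Irreducible ((P i).map (Int.castRingHom ℚ)) := by
      have := ((H.hm i).irreducible_iff_irreducible_map_fraction_map (K := ℚ)).1 (H.hi i)
      exact this
    have h2 : (P i).map (Int.castRingHom ℚ) = minpoly ℚ a := by
      refine minpoly.eq_of_irreducible_of_monic h1 ?_ ((H.hm i).map _)
      rw [aeval_map]
      exact hi
    have h3 : pq x π = cst K (Units.mk0 _ hlc) * pz x (P i) := by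
      rw [pz, h2]
      conv_lhs => rw [hmin]
      rw [pq_mul H.hx (C_ne_zero.2 hlc) (minpoly.ne_zero haI)]
      congr 1
      exact pq_C H.hx (Units.mk0 _ hlc)
    refine ⟨pq x π, ?_, rfl⟩
    rw [h3]
    refine mul_mem (replA_cst_mem _) (Subgroup.subset_closure (Or.inl ⟨i, ?_⟩))
    exact pz_val H.hx (H.hm i).ne_zero
  push Not at hP
  have hne : aeval a (fp P e c κ) ≠ (κ : ℂ) := by
    rw [aeval_fp]
    intro h
    have h1 : (c : ℂ) * ∏ i, aeval a (P i) ^ e i = 0 := by linear_combination h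
    rcases mul_eq_zero.1 h1 with h2 | h2
    · exact H.hc (by exact_mod_cast h2)
    · obtain ⟨i, _, hi⟩ := Finset.prod_eq_zero_iff.1 h2
      exact hP i (pow_eq_zero_iff (H.he i) |>.1 hi)
  have hb0 : b ≠ 0 := by
    rintro rfl
    rw [zero_pow hm0] at hb
    exact zero_ne_one hb
  have hs : aeval a (fp P e c κ) = b + ε / b := replA_s hb0 hab
  have hirr := irr H.hm H.sum_pos H.hc H.hκ hT hab hm0 hb hne
  have hsI : IsIntegral ℚ (aeval a (fp P e c κ)) := by
    rw [hs]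
    exact replA_alg' hm0 hb ε
  set Ψ := minpoly ℚ (aeval a (fp P e c κ)) with hΨ
  have hcr : aeval a (Ψ.comp (fQ P e c κ)) = 0 := by
    rw [aeval_comp, aeval_fQ, hΨ, minpoly.aeval]
  have hdeg : (Ψ.comp (fQ P e c κ)).natDegree =
      Ψ.natDegree * ∑ i, e i * (P i).natDegree := by
    rw [natDegree_comp, H.fQ_natDegree]
  have hL : Ψ.comp (fQ P e c κ) = C (Ψ.comp (fQ P e c κ)).leadingCoeff * minpoly ℚ a := by
    refine eq_leadingCoeff_mul_of_monic_of_dvd_of_natDegree_le (minpoly.monic haI)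
      (minpoly.dvd ℚ a hcr) ?_
    rw [hdeg, mul_comm]
    exact hirr
  have hΨd : 0 < Ψ.natDegree := minpoly.natDegree_pos hsI
  have hcomp0 : Ψ.comp (fQ P e c κ) ≠ 0 := by
    intro h0
    rw [h0, natDegree_zero] at hdeg
    have := Nat.mul_pos hΨd H.sum_pos
    omega
  have hLne : (Ψ.comp (fQ P e c κ)).leadingCoeff ≠ 0 := leadingCoeff_ne_zero.2 hcomp0
  have hπc : π = C (π.leadingCoeff * ((Ψ.comp (fQ P e c κ)).leadingCoeff)⁻¹) *
      Ψ.comp (fQ P e c κ) := by
    conv_rhs => rw [hL]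
    rw [← mul_assoc, ← C_mul]
    conv_lhs => rw [hmin]
    rw [← hL, mul_assoc, inv_mul_cancel₀ hLne, mul_one]
  have hv : ∀ m : ℕ, m ≠ 0 → v ^ m ≠ 1 := by
    intro n hn hvn
    have hvn' : (v : K) ^ n = 1 := by
      rw [← Units.val_pow_eq_pow_val, hvn, Units.val_one]
    have h1 : aeval x (fp P e c κ) = (v : K) + ε / v := replA_s v.ne_zero H.h
    have h2 : IsIntegral ℚ (aeval x (fQ P e c κ)) := by
      rw [aeval_fQ, h1]
      exact replA_alg' hn hvn' ε
    have h3 : (fQ P e c κ).natDegree ≠ 0 := by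
      rw [H.fQ_natDegree]
      exact H.sum_pos.ne'
    refine H.hx (IsAlgebraic.of_aeval (fQ P e c κ) h3 ?_ h2.isAlgebraic)
    refine mem_nonZeroDivisors_of_ne_zero (leadingCoeff_ne_zero.2 ?_)
    rintro h0
    rw [h0, natDegree_zero] at h3
    exact h3 rfl
  have hg : sy (pq x (Ψ.comp (fQ P e c κ))) v = 0 := by
    refine sy_psi hv H.hε hm0 hb ?_
    rw [pq_val H.hx hcomp0, aeval_comp, aeval_fQ, replA_s v.ne_zero H.h, hΨ, hs]
  have hu : π.leadingCoeff * ((Ψ.comp (fQ P e c κ)).leadingCoeff)⁻¹ ≠ 0 :=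
    mul_ne_zero hlc (inv_ne_zero hLne)
  refine ⟨cst K (Units.mk0 _ hu), replA_cst_mem _, ?_⟩
  conv_lhs => rw [hπc]
  rw [pq_mul H.hx (C_ne_zero.2 hu) hcomp0, sy_mul_left, hg, add_zero]
  congr 1
  exact pq_C H.hx (Units.mk0 _ hu)

end HYF
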