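import Mathlib
import Pool.Agent.HYI.Base
import Pool.Agent.HYF.Base
import Pool.Agent.HYF.ReplA

/-! Every nonzero rational function of `x` can be replaced by an element of `xGroup` in the symbol `{h, v}`:
the polynomials by induction on the irreducible factors (`repl_irr`), then the group generated by them. -/

namespace HYF

open Polynomial HYI Pool.Agent.Helper11 Pool.Agent.ISI

private theorem ReplB_cst {r : ℕ} {P : Fin (r + 1) → ℤ[X]} {f : ℤ[X]} {ε : ℤ} {K : Type}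
    [Field K] [CharZero K] {x : K} (q : ℚˣ) : cst K q ∈ xGroup P f ε x := by
  refine Subgroup.subset_closure (Or.inr ⟨C (q : ℚ), fun a b ha => ?_, ?_⟩)
  · rw [aeval_C] at ha
    exact absurd ((map_eq_zero (algebraMap ℚ ℂ)).1 ha) q.ne_zero
  · rw [cst_val, aeval_C, eq_ratCast]

private theorem ReplB_pol {r : ℕ} {P : Fin (r + 1) → ℤ[X]} {e : Fin (r + 1) → ℕ} {c κ ε : ℤ} {K : Type}
    [Field K] [CharZero K] {x : K} {v : Kˣ} (H : Cur P e c κ ε x v)
    (hT : TwoPrimes (∑ i, e i * (P i).natDegree) c) (p : ℚ[X]) : p ≠ 0 →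
    ∃ h' ∈ xGroup P (fp P e c κ) ε x, sy (pq x p) v = sy h' v := by
  refine WfDvdMonoid.induction_on_irreducible
    (motive := fun p : ℚ[X] => p ≠ 0 → ∃ h' ∈ xGroup P (fp P e c κ) ε x, sy (pq x p) v = sy h' v) p ?_ ?_ ?_
  · intro h0
    exact absurd rfl h0
  · intro u hu _
    obtain ⟨q, hq, rfl⟩ := Polynomial.isUnit_iff.1 hu
    obtain ⟨q', rfl⟩ := hq
    exact ⟨cst K q', ReplB_cst q', by rw [pq_C H.hx]⟩
  · intro a i ha hi ih _
    obtain ⟨h1, hm1, he1⟩ := ih ha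
    obtain ⟨h2, hm2, he2⟩ := repl_irr H hT hi
    refine ⟨h2 * h1, mul_mem hm2 hm1, ?_⟩
    rw [pq_mul H.hx hi.ne_zero ha, sy_mul_left, sy_mul_left, he1, he2]

theorem repl {r : ℕ} {P : Fin (r + 1) → ℤ[X]} {e : Fin (r + 1) → ℕ} {c κ ε : ℤ} {K : Type}
    [Field K] [CharZero K] {x : K} {v : Kˣ} (H : Cur P e c κ ε x v)
    (hT : TwoPrimes (∑ i, e i * (P i).natDegree) c) {h : Kˣ} (hh : h ∈ xFull x) :
    ∃ h' ∈ xGroup P (fp P e c κ) ε x, sy h v = sy h' v := by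
  have hinv : ∀ u w : Kˣ, sy u⁻¹ w = - sy u w := fun u w => by
    have h1 := sy_zpow_left w u (-1)
    rw [zpow_neg_one] at h1
    rw [h1]
    push_cast
    rw [neg_smul, one_smul]
  refine Subgroup.closure_induction (p := fun h _ => ∃ h' ∈ xGroup P (fp P e c κ) ε x, sy h v = sy h' v)
    ?_ ?_ ?_ ?_ hh
  · rintro u ⟨p, hp⟩
    have hp0 : p ≠ 0 := by
      rintro rfl
      rw [map_zero] at hp
      exact u.ne_zero hp
    rw [pq_congr H.hx hp0 hp]
    exact ReplB_pol H hT p hp0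
  · exact ⟨1, one_mem _, rfl⟩
  · rintro a b _ _ ⟨a', ha, ha'⟩ ⟨b', hb, hb'⟩
    exact ⟨a' * b', mul_mem ha hb, by rw [sy_mul_left, sy_mul_left, ha', hb']⟩
  · rintro a _ ⟨a', ha, ha'⟩
    exact ⟨a'⁻¹, inv_mem ha, by rw [hinv, hinv, ha']⟩

end HYF
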