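import Mathlib
import Pool.Agent.HYI.Base
import Pool.Agent.HYI.Api
import Pool.Agent.HYI.Stab
import Pool.Agent.HYI.Span
import Pool.Agent.ISI.MilC
import Pool.Agent.HYF.Base

/-! The two parts of an integral element under the involution, for the group of all rational functions of `x`. -/

namespace HYF

open Polynomial HYI Pool.Agent.Helper11 Pool.Agent.ISI

private lemma spf_quad (f ε : ℂ) : ∃ b : ℂ, b ^ 2 - f * b + ε = 0 := by
  obtain ⟨s, hs⟩ := IsAlgClosed.exists_pow_nat_eq (f ^ 2 / 4 - ε) (n := 2) (by norm_num)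
  exact ⟨f / 2 + s, by linear_combination hs⟩

private lemma spf_eval {K : Type} [Field K] [CharZero K] {x : K} (O : ValuationSubring K)
    (ρ : O →+* ℂ) (hq : ∀ q : ℚ, (q : K) ∈ O) (h1 : x ∈ O) {a : ℂ} (ha : ρ ⟨x, h1⟩ = a)
    (p : ℚ[X]) : ∃ h : aeval x p ∈ O, ρ ⟨aeval x p, h⟩ = aeval a p := by
  induction p using Polynomial.induction_on' with
  | add p q hp hq' =>
    obtain ⟨h3, h4⟩ := hp
    obtain ⟨h5, h6⟩ := hq'
    refine ⟨by rw [map_add]; exact add_mem h3 h5, ?_⟩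
    have e : (⟨aeval x (p + q), by rw [map_add]; exact add_mem h3 h5⟩ : O) =
        ⟨aeval x p, h3⟩ + ⟨aeval x q, h5⟩ := by
      apply Subtype.ext
      simp
    rw [e, map_add, map_add, h4, h6]
  | monomial n q =>
    have h3 : aeval x (monomial n q) = (q : K) * x ^ n := by
      rw [aeval_monomial, eq_ratCast]
    have h4 : aeval a (monomial n q) = (q : ℂ) * a ^ n := by
      rw [aeval_monomial, eq_ratCast]
    let ι : ℚ →+* O := (algebraMap ℚ K).codRestrict O.toSubring fun q => by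
      rw [eq_ratCast]
      exact hq q
    have h5 : ρ (ι q) = (q : ℂ) := eq_ratCast (ρ.comp ι) q
    have h6 : aeval x (monomial n q) ∈ O := by
      rw [h3]
      exact mul_mem (hq q) (pow_mem h1 n)
    refine ⟨h6, ?_⟩
    have e : (⟨aeval x (monomial n q), h6⟩ : O) = ι q * ⟨x, h1⟩ ^ n := by
      apply Subtype.ext
      refine h3.trans ?_
      change (q : K) * x ^ n = (algebraMap ℚ K q) * x ^ n
      rw [eq_ratCast]
    rw [e, map_mul, map_pow, h5, ha, h4]

private lemma spf_one {K : Type} [Field K] (h : Kˣ) : sy h (1 : Kˣ) = 0 := by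
  have h1 := sy_mul_right h (1 : Kˣ) 1
  rw [one_mul] at h1
  exact left_eq_add.1 h1

private lemma spf_neg_one {K : Type} [Field K] (h : Kˣ) : sy h (-1 : Kˣ) = 0 := by
  have h1 := sy_mul_right h (-1 : Kˣ) (-1)
  rw [neg_mul_neg, one_mul, spf_one] at h1
  have h3 : (2 : ℚ) • sy h (-1 : Kˣ) = 0 := by
    rw [two_smul]
    exact h1.symm
  exact (smul_eq_zero.1 h3).resolve_left two_ne_zero

variable {r : ℕ} {P : Fin (r + 1) → ℤ[X]} {e : Fin (r + 1) → ℕ} {c κ ε : ℤ} {K : Type}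
    [Field K] [CharZero K] {x : K} {v : Kˣ}

/-- the two parts, for a group `G` of rational functions of `x` -/
theorem split_gen (H : Cur P e c κ ε x v) (G : Subgroup Kˣ)
    (hG : ∀ h ∈ G, ∃ p q : ℚ[X], p ≠ 0 ∧ q ≠ 0 ∧ h = pq x p / pq x q) {z : KMQ K 2}
    (hz : z ∈ Submodule.span ℚ {t : KMQ K 2 | ∃ a ∈ G ⊔ Subgroup.zpowers v,
      ∃ b ∈ G ⊔ Subgroup.zpowers v, t = sy a b}) (hi : z ∈ integralM K 2) :
    ∃ (M : ℕ) (h : Kˣ), M ≠ 0 ∧ h ∈ G ∧ (M : ℚ) • z = sy h v ∧ sy h v ∈ integralM K 2 := by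
  obtain ⟨M, h, hM, hh, hβ⟩ := span_split G v hz
  set β := (M : ℚ) • z - sy h v with hβd
  obtain ⟨σ, hσx, hσv⟩ := H.invol
  have hpq : ∀ p : ℚ[X], p ≠ 0 → Units.map (((σ : K →+* K)) : K →* K) (pq x p) = pq x p := by
    intro p hp
    apply Units.ext
    rw [Units.coe_map, pq_val H.hx hp]
    change σ (aeval x p) = aeval x p
    have h1 := aeval_algHom_apply ((σ : K →+* K).toRatAlgHom) x p
    have h2 : (σ : K →+* K).toRatAlgHom x = x := hσx
    rw [h2] at h1
    exact h1.symm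
  have hfix : ∀ a ∈ G, Units.map (((σ : K →+* K)) : K →* K) a = a := by
    intro a ha
    obtain ⟨p, q, hp, hq, rfl⟩ := hG a ha
    rw [_root_.map_div, hpq p hp, hpq q hq]
  have hσβ : KMQ.map (σ : K →+* K) 2 β = β := by
    clear_value β
    refine Submodule.span_induction (p := fun y _ => KMQ.map (σ : K →+* K) 2 y = y) ?_ ?_ ?_ ?_ hβ
    · rintro y ⟨a, ha, b, hb, rfl⟩
      rw [map_sy, hfix a ha, hfix b hb]
    · exact map_zero _
    · intro y y' _ _ h1 h2
      rw [map_add, h1, h2]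
    · intro s y _ h1
      rw [map_smul, h1]
  have hσs : KMQ.map (σ : K →+* K) 2 (sy h v) = - sy h v := by
    rw [map_sy, hfix h hh]
    rcases H.hε with h0 | h0
    · have h1 : Units.map (((σ : K →+* K)) : K →* K) v = v⁻¹ := by
        apply Units.ext
        rw [Units.coe_map, Units.val_inv_eq_inv_val]
        change σ (v : K) = _
        rw [hσv, h0]
        simp
      rw [h1, sy_inv_right]
    · have h1 : Units.map (((σ : K →+* K)) : K →* K) v = (-1) * v⁻¹ := by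
        apply Units.ext
        rw [Units.coe_map, Units.val_mul, Units.val_inv_eq_inv_val]
        change σ (v : K) = _
        rw [hσv, h0]
        simp [neg_div]
      rw [h1, sy_mul_right, spf_neg_one, zero_add, sy_inv_right]
  have hMz : (M : ℚ) • z = β + sy h v := by
    rw [hβd, sub_add_cancel]
  have hσz : (M : ℚ) • KMQ.map (σ : K →+* K) 2 z = β - sy h v := by
    rw [← map_smul, hMz, map_add, hσβ, hσs, sub_eq_add_neg]
  have hi1 : β + sy h v ∈ integralM K 2 := by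
    rw [← hMz]
    exact Submodule.smul_mem _ _ hi
  have hi2 : β - sy h v ∈ integralM K 2 := by
    rw [← hσz]
    exact Submodule.smul_mem _ _ (map_integral σ hi)
  have hβi : β ∈ integralM K 2 := by
    have h1 : β = (2 : ℚ)⁻¹ • ((β + sy h v) + (β - sy h v)) := by
      have h2 : (β + sy h v) + (β - sy h v) = (2 : ℚ) • β := by
        rw [two_smul]
        abel
      rw [h2, smul_smul]
      norm_num
    rw [h1]
    exact Submodule.smul_mem _ _ (Submodule.add_mem _ hi1 hi2)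
  have hsi : sy h v ∈ integralM K 2 := by
    have h1 : sy h v = (β + sy h v) - β := by abel
    rw [h1]
    exact Submodule.sub_mem _ hi1 hβi
  have hLP : β ∈ LP x := by
    have h3 : ∀ a b : ℚ[X], a ≠ 0 → b ≠ 0 → sy (pq x a) (pq x b) ∈ LP x :=
      fun a b ha hb => Submodule.subset_span ⟨a, b, ha, hb, rfl⟩
    refine (Submodule.span_le.2 ?_ : _ ≤ LP x) hβ
    rintro t ⟨a, ha, b, hb, rfl⟩
    obtain ⟨p, q, hp, hq, rfl⟩ := hG a ha
    obtain ⟨p', q', hp', hq', rfl⟩ := hG b hb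
    rw [sy_div_left, sy_div_right, sy_div_right]
    exact Submodule.sub_mem _ (Submodule.sub_mem _ (h3 _ _ hp hp') (h3 _ _ hp hq'))
      (Submodule.sub_mem _ (h3 _ _ hq hp') (h3 _ _ hq hq'))
  have hβ0 : β = 0 := by
    have h1 := milnor H.hx (∅ : Set ℚ) hLP (by
      intro π hπ hirr _
      obtain ⟨a, ha⟩ := IsAlgClosed.exists_aeval_eq_zero ℂ π (degree_pos_of_irreducible hirr).ne'
      obtain ⟨b, hb⟩ := spf_quad (aeval a (fp P e c κ)) (ε : ℂ)
      obtain ⟨O, ρ, hdvr, hρ, hq, ⟨hx, hρx⟩, _, _⟩ := H.place a b π hπ.ne_zero ha hb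
      refine ⟨O, hdvr, hq, hx, ?_, ?_⟩
      · obtain ⟨h2, h3⟩ := spf_eval O ρ hq hx hρx π
        exact (hρ ⟨_, h2⟩).1 (by rw [h3, ha])
      · rw [integralM, Submodule.mem_iInf] at hβi
        have h4 := hβi O
        rw [Submodule.mem_iInf] at h4
        exact h4 hdvr)
    have h2 : {v : KMQ K 2 | ∃ s ∈ (∅ : Set ℚ), ∃ q : ℚˣ,
        v = sy (pq x (X - C s)) (cst K q)} = ∅ := by
      ext v
      simp
    rw [h2, Submodule.span_empty] at h1
    exact (Submodule.mem_bot ℚ).1 h1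
  refine ⟨M, h, hM, hh, ?_, hsi⟩
  rw [hMz, hβ0, zero_add]

theorem xFull_quot (hx : Transcendental ℚ x) {h : Kˣ} (hh : h ∈ xFull x) :
    ∃ p q : ℚ[X], p ≠ 0 ∧ q ≠ 0 ∧ h = pq x p / pq x q := by
  have h1 : pq x 1 = 1 := by
    apply Units.ext
    rw [pq_val hx one_ne_zero, map_one, Units.val_one]
  refine Subgroup.closure_induction
    (p := fun h _ => ∃ p q : ℚ[X], p ≠ 0 ∧ q ≠ 0 ∧ h = pq x p / pq x q) ?_ ?_ ?_ ?_ hh
  · rintro u ⟨p, hp⟩
    have hp0 : p ≠ 0 := by
      rintro rfl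
      rw [map_zero] at hp
      exact u.ne_zero hp
    refine ⟨p, 1, hp0, one_ne_zero, ?_⟩
    rw [h1, div_one]
    apply Units.ext
    rw [hp, pq_val hx hp0]
  · exact ⟨1, 1, one_ne_zero, one_ne_zero, by rw [h1, div_one]⟩
  · rintro a b _ _ ⟨p, q, hp, hq, rfl⟩ ⟨p', q', hp', hq', rfl⟩
    refine ⟨p * p', q * q', mul_ne_zero hp hp', mul_ne_zero hq hq', ?_⟩
    rw [pq_mul hx hp hp', pq_mul hx hq hq', div_mul_div_comm]
  · rintro a _ ⟨p, q, hp, hq, rfl⟩
    exact ⟨q, p, hq, hp, by rw [inv_div]⟩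

theorem fullGroup_eq : fullGroup x (v : K) = xFull x ⊔ Subgroup.zpowers v := by
  unfold fullGroup xFull
  rw [Set.union_comm, Subgroup.closure_union]
  congr 1
  rw [Subgroup.zpowers_eq_closure]
  congr 1
  ext u
  simp only [Set.mem_ofPred_eq, Set.mem_singleton_iff]
  exact ⟨fun h => Units.ext h, fun h => by rw [h]⟩

theorem int_split_full (H : Cur P e c κ ε x v) {z : KMQ K 2}
    (hz : z ∈ Submodule.span ℚ {t : KMQ K 2 | ∃ a ∈ fullGroup x (v : K),
      ∃ b ∈ fullGroup x (v : K), t = sy a b}) (hi : z ∈ integralM K 2) :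
    ∃ (M : ℕ) (h : Kˣ), M ≠ 0 ∧ h ∈ xFull x ∧ (M : ℚ) • z = sy h v ∧
      sy h v ∈ integralM K 2 := by
  rw [fullGroup_eq] at hz
  exact split_gen H (xFull x) (fun h hh => xFull_quot H.hx hh) hz hi

end HYF
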