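import Mathlib
import Pool.Agent.HYI.Main
import Pool.Agent.HYF.ReplB
import Pool.Agent.HYF.SplitF

/-! The main theorem with the full support clause. -/

namespace HYF

open Polynomial HYI Pool.Agent.Helper11 Pool.Agent.ISI

variable {r : ℕ} {P : Fin (r + 1) → ℤ[X]} {e : Fin (r + 1) → ℕ} {c κ ε : ℤ} {K : Type}
  [Field K] [CharZero K] {x : K} {v : Kˣ}

theorem core_full (H : Cur P e c κ ε x v) (hT : TwoPrimes (∑ i, e i * (P i).natDegree) c)
    {z : KMQ K 2} (hz : z ∈ Submodule.span ℚ {t : KMQ K 2 | ∃ a ∈ fullGroup x (v : K),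
      ∃ b ∈ fullGroup x (v : K), t = sy a b}) (hi : z ∈ integralM K 2)
    (u : Fin r → Kˣ) (hu : ∀ i, (u i : K) = aeval x (P i.succ) ^ (P 0).natDegree /
      aeval x (P 0) ^ (P i.succ).natDegree) :
    z ∈ Submodule.span ℚ (Set.range fun i => sy (u i) v) := by
  obtain ⟨M, h, hM, hh, hMz, hint⟩ := int_split_full H hz hi
  obtain ⟨h', hh', he⟩ := repl H hT hh
  rw [he] at hint hMz
  have h1 : sy h' v ∈ Submodule.span ℚ {t : KMQ K 2 |
      ∃ a ∈ funGroup P (fp P e c κ) ε x (v : K),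
        ∃ b ∈ funGroup P (fp P e c κ) ε x (v : K), t = sy a b} := by
    refine Submodule.subset_span ⟨h', ?_, v, ?_, rfl⟩
    · rw [funGroup_eq]
      exact Subgroup.mem_sup_left hh'
    · exact Subgroup.subset_closure (Or.inl (Or.inl rfl))
  have h2 := core H h1 hint u hu
  have hM0 : (M : ℚ) ≠ 0 := Nat.cast_ne_zero.2 hM
  have h3 : z = (M : ℚ)⁻¹ • sy h' v := by
    rw [← hMz, smul_smul, inv_mul_cancel₀ hM0, one_smul]
  rw [h3]
  exact Submodule.smul_mem _ _ h2

theorem main (hm : ∀ i, (P i).Monic) (hi : ∀ i, Irreducible (P i))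
    (hd : Function.Injective P) (he : ∀ i, e i ≠ 0) (hc : c ≠ 0)
    (hκ : (ε = 1 ∧ |κ| ≤ 2) ∨ (ε = -1 ∧ κ = 0))
    {x w : K} (hx : Transcendental ℚ x)
    (hK : IntermediateField.adjoin ℚ {x, w} = ⊤)
    (h : w + ε * w⁻¹ = c * ∏ i, (aeval x (P i)) ^ e i + κ) :
    ∃ (u : Fin r → Kˣ) (v : Kˣ), (v : K) = w ∧
      (∀ i, (u i : K) = aeval x (P i.succ) ^ (P 0).natDegree /
        aeval x (P 0) ^ (P i.succ).natDegree) ∧
      intSym (funGroup P (C c * ∏ i, P i ^ e i + C κ) ε x w) =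
        Submodule.span ℚ (Set.range fun i => sym (u i) v) ∧
      (TwoPrimes (∑ i, e i * (P i).natDegree) c →
        intSym (fullGroup x w) = Submodule.span ℚ (Set.range fun i => sym (u i) v)) ∧
      ∃ (n : ℕ) (R : Fin n → (K2Q K →ₗ[ℚ] ℝ)),
        (∀ j, ∃ γ : K →+* LoopRing, ∀ f g : Kˣ,
          R j (sym f g) = regInt (γ (f : K) : ℝ → ℂ) (γ (g : K) : ℝ → ℂ)) ∧
        BPG.genus (BPG.disc P e c κ ε) ≤ Module.finrank ℝ (Submodule.span ℝ
            (Set.range fun (i : Fin r) (j : Fin n) => R j (sym (u i) v))) +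
          ∑ i, ((P i).natDegree * (if |κ| = 2 then (e i + 1) / 2 else e i) - 1) := by
  obtain ⟨u, v, hv, hu, hV, n, R, hR, hg⟩ := HYI.main hm hi hd he hc hκ hx hK h
  refine ⟨u, v, hv, hu, hV, fun hT => ?_, n, R, hR, hg⟩
  apply le_antisymm
  · subst hv
    have H : Cur P e c κ ε x v := by
      refine ⟨hm, hi, hd, he, hc, hκ, hx, hK, ?_⟩
      rw [aeval_fp]
      have hv0 : (v : K) ≠ 0 := v.ne_zero
      rw [← h]
      field_simp
      ring
    obtain ⟨F, G, hF, hG, hGF, hFi⟩ := exists_bri K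
    intro z hz
    obtain ⟨hz1, hz2⟩ := Submodule.mem_inf.1 hz
    have h1 : F z ∈ Submodule.span ℚ {t : KMQ K 2 | ∃ a ∈ fullGroup x (v : K),
          ∃ b ∈ fullGroup x (v : K), t = sy a b} := by
      have h2 := Submodule.mem_map_of_mem (f := F) hz1
      rw [Submodule.map_span] at h2
      refine Submodule.span_mono ?_ h2
      rintro _ ⟨_, ⟨a, ha, b, hb, rfl⟩, rfl⟩
      exact ⟨a, ha, b, hb, hF a b⟩
    have h3 := core_full H hT h1 (hFi z hz2) u hu
    have h4 := Submodule.mem_map_of_mem (f := G) h3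
    rw [hGF, Submodule.map_span] at h4
    refine Submodule.span_mono ?_ h4
    rintro _ ⟨_, ⟨i, rfl⟩, rfl⟩
    exact ⟨i, (hG _ _).symm⟩
  · rw [← hV]
    have hsub : funGroup P (C c * ∏ i, P i ^ e i + C κ) ε x w ≤ fullGroup x w := by
      unfold funGroup
      rw [Subgroup.closure_le]
      rintro t ((ht | ⟨i, ht⟩) | ⟨p, _, ht⟩)
      · exact Subgroup.subset_closure (Or.inl ht)
      · refine Subgroup.subset_closure (Or.inr ⟨(P i).map (Int.castRingHom ℚ), ?_⟩)
        rw [ht, aeval_map]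
      · exact Subgroup.subset_closure (Or.inr ⟨p, ht⟩)
    unfold intSym
    refine inf_le_inf_right _ (Submodule.span_mono ?_)
    rintro z ⟨a, ha, b, hb, hz⟩
    exact ⟨a, hsub ha, b, hsub hb, hz⟩

end HYF
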